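import Mathlib

/-!
# Random functions: exponential tail and averaging
-/

set_option autoImplicit false

namespace Pool.Agent.W2helper87.SR

open Finset

/-- the sum over all functions of a product -/
theorem sum_fun_prod {ι κ : Type} [Fintype ι] [DecidableEq ι] [Fintype κ] (g : ι → κ → ℝ) :
    ∑ ψ : ι → κ, ∏ i, g i (ψ i) = ∏ i, ∑ x, g i x := by
  classical
  rw [Finset.prod_univ_sum]
  simp [Fintype.piFinset_univ]

theorem exp_le_quad {x : ℝ} (hx : |x| ≤ 1) : Real.exp x ≤ 1 + x + x ^ 2 := by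
  have h := Real.abs_exp_sub_one_sub_id_le hx
  have := (abs_le.1 h).2
  linarith

/-- the exponential moment of a centred indicator -/
theorem mgf_one {κ : Type} [Fintype κ] [DecidableEq κ] (B : Finset κ)
    (hκ : 0 < Fintype.card κ) (lam : ℝ) (h0 : 0 ≤ lam) (h1 : lam ≤ 1) :
    ∑ x : κ, Real.exp (lam * ((if x ∈ B then (1 : ℝ) else 0) - (B.card : ℝ) / Fintype.card κ)) ≤
      Fintype.card κ * Real.exp (lam ^ 2 / 4) := by
  classical
  set p : ℝ := (B.card : ℝ) / Fintype.card κ with hp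
  have hκ' : (0 : ℝ) < Fintype.card κ := by exact_mod_cast hκ
  have hp0 : 0 ≤ p := by positivity
  have hp1 : p ≤ 1 := by
    rw [hp, div_le_one hκ']
    exact_mod_cast Finset.card_le_univ B
  have hterm : ∀ x : κ, Real.exp (lam * ((if x ∈ B then (1 : ℝ) else 0) - p)) ≤
      1 + lam * ((if x ∈ B then (1 : ℝ) else 0) - p) +
        (lam * ((if x ∈ B then (1 : ℝ) else 0) - p)) ^ 2 := by
    intro x
    apply exp_le_quad
    rw [abs_mul, abs_of_nonneg h0]
    have : |(if x ∈ B then (1 : ℝ) else 0) - p| ≤ 1 := by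
      rw [abs_le]
      split_ifs <;> constructor <;> linarith
    calc lam * |(if x ∈ B then (1 : ℝ) else 0) - p| ≤ 1 * 1 := by
          apply mul_le_mul h1 this (abs_nonneg _) zero_le_one
      _ = 1 := by ring
  have hsum : ∑ x : κ, (if x ∈ B then (1 : ℝ) else 0) = B.card := by
    rw [Finset.sum_boole]
    congr 2
    ext x
    simp
  have hsq : ∀ x : κ, ((if x ∈ B then (1 : ℝ) else 0) - p) ^ 2 =
      (1 - 2 * p) * (if x ∈ B then (1 : ℝ) else 0) + p ^ 2 := by
    intro x
    split_ifs <;> ring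
  have hB : (B.card : ℝ) = p * Fintype.card κ := by
    rw [hp]
    field_simp
  have h2 : ∑ x : κ, (1 + lam * ((if x ∈ B then (1 : ℝ) else 0) - p) +
        (lam * ((if x ∈ B then (1 : ℝ) else 0) - p)) ^ 2) =
      Fintype.card κ * (1 + lam ^ 2 * (p * (1 - p))) := by
    have e1 : ∀ x : κ, (1 + lam * ((if x ∈ B then (1 : ℝ) else 0) - p) +
        (lam * ((if x ∈ B then (1 : ℝ) else 0) - p)) ^ 2) =
        (lam + lam ^ 2 * (1 - 2 * p)) * (if x ∈ B then (1 : ℝ) else 0) +
          (1 - lam * p + lam ^ 2 * p ^ 2) := by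
      intro x
      rw [mul_pow, hsq]
      ring
    rw [Finset.sum_congr rfl (fun x _ => e1 x), Finset.sum_add_distrib, ← Finset.mul_sum, hsum,
      Finset.sum_const, nsmul_eq_mul, Finset.card_univ, hB]
    ring
  refine (Finset.sum_le_sum fun x _ => hterm x).trans ?_
  rw [h2]
  apply mul_le_mul_of_nonneg_left _ hκ'.le
  have h3 : p * (1 - p) ≤ 1 / 4 := by nlinarith [sq_nonneg (p - 1 / 2)]
  have h4 := Real.add_one_le_exp (lam ^ 2 / 4)
  have h5 : lam ^ 2 * (p * (1 - p)) ≤ lam ^ 2 * (1 / 4) := by gcongr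
  linarith

/-- upper tail for a random function -/
theorem tail {ι κ : Type} [Fintype ι] [DecidableEq ι] [Fintype κ] [DecidableEq κ]
    (S : Finset ι) (B : Finset κ) (hκ : 0 < Fintype.card κ) (s t : ℝ) (hs : 0 < s)
    (hS : (S.card : ℝ) ≤ s) (ht : 0 ≤ t) (ht2 : t ≤ s / 2) :
    ((univ.filter (fun ψ : ι → κ =>
      (S.card : ℝ) * (B.card / Fintype.card κ) + t ≤
        ((S.filter (fun i => ψ i ∈ B)).card : ℝ))).card : ℝ) ≤
      Real.exp (-(t ^ 2) / s) * (Fintype.card (ι → κ) : ℝ) := by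
  classical
  set p : ℝ := (B.card : ℝ) / Fintype.card κ with hp
  set lam : ℝ := 2 * t / s with hlam
  have hl0 : 0 ≤ lam := by positivity
  have hl1 : lam ≤ 1 := by
    rw [hlam, div_le_one hs]
    linarith
  have hκ' : (0 : ℝ) < Fintype.card κ := by exact_mod_cast hκ
  -- the exponential bound
  have h1 : ((univ.filter (fun ψ : ι → κ => (S.card : ℝ) * p + t ≤
        ((S.filter (fun i => ψ i ∈ B)).card : ℝ))).card : ℝ) ≤
      ∑ ψ : ι → κ, Real.exp (lam * (((S.filter (fun i => ψ i ∈ B)).card : ℝ) -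
        S.card * p - t)) := by
    rw [← Finset.sum_boole]
    apply Finset.sum_le_sum
    intro ψ _
    split_ifs with h
    · rw [← Real.exp_zero]
      apply Real.exp_le_exp.2
      apply mul_nonneg hl0
      linarith
    · positivity
  refine h1.trans ?_
  have h2 : ∀ ψ : ι → κ, Real.exp (lam * (((S.filter (fun i => ψ i ∈ B)).card : ℝ) -
        S.card * p - t)) = Real.exp (-(lam * t)) *
      ∏ i, (if i ∈ S then Real.exp (lam * ((if ψ i ∈ B then (1 : ℝ) else 0) - p)) else 1) := by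
    intro ψ
    rw [Finset.prod_ite_mem, Finset.univ_inter, ← Real.exp_sum, ← Real.exp_add]
    congr 1
    rw [← Finset.mul_sum, Finset.sum_sub_distrib, Finset.sum_const, nsmul_eq_mul, Finset.sum_boole]
    ring
  rw [Finset.sum_congr rfl (fun ψ _ => h2 ψ), ← Finset.mul_sum,
    sum_fun_prod (fun i x => if i ∈ S then Real.exp (lam * ((if x ∈ B then (1 : ℝ) else 0) - p))
      else 1)]
  have h3 : ∏ i : ι, ∑ x : κ, (if i ∈ S then
        Real.exp (lam * ((if x ∈ B then (1 : ℝ) else 0) - p)) else 1) ≤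
      ∏ i : ι, ((Fintype.card κ : ℝ) * (if i ∈ S then Real.exp (lam ^ 2 / 4) else 1)) := by
    apply Finset.prod_le_prod
    · intro i _
      apply Finset.sum_nonneg
      intro x _
      split_ifs <;> positivity
    · intro i _
      by_cases hi : i ∈ S
      · simp only [hi, if_true]
        exact mgf_one B hκ lam hl0 hl1
      · simp [hi]
  have h4 : ∏ i : ι, ((Fintype.card κ : ℝ) * (if i ∈ S then Real.exp (lam ^ 2 / 4) else 1)) =
      (Fintype.card (ι → κ) : ℝ) * Real.exp (S.card * (lam ^ 2 / 4)) := by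
    rw [Finset.prod_mul_distrib, Finset.prod_const, Finset.card_univ, Finset.prod_ite_mem,
      Finset.univ_inter, Finset.prod_const, ← Real.exp_nat_mul, Fintype.card_fun]
    push_cast
    ring
  calc Real.exp (-(lam * t)) * ∏ i : ι, ∑ x : κ, (if i ∈ S then
        Real.exp (lam * ((if x ∈ B then (1 : ℝ) else 0) - p)) else 1)
      ≤ Real.exp (-(lam * t)) * ((Fintype.card (ι → κ) : ℝ) *
          Real.exp (S.card * (lam ^ 2 / 4))) := by
        rw [← h4]
        exact mul_le_mul_of_nonneg_left h3 (Real.exp_pos _).le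
    _ = Real.exp (-(lam * t) + S.card * (lam ^ 2 / 4)) * (Fintype.card (ι → κ) : ℝ) := by
        rw [Real.exp_add]
        ring
    _ ≤ Real.exp (-(t ^ 2) / s) * (Fintype.card (ι → κ) : ℝ) := by
        apply mul_le_mul_of_nonneg_right _ (by positivity)
        apply Real.exp_le_exp.2
        have h5 : (S.card : ℝ) * (lam ^ 2 / 4) ≤ s * (lam ^ 2 / 4) := by gcongr
        have h6 : -(lam * t) + s * (lam ^ 2 / 4) = -(t ^ 2) / s := by
          rw [hlam]
          field_simp
          ring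
        linarith

/-- averaging: some outcome has few bad items -/
theorem avg {Ω I : Type} [Fintype Ω] [Nonempty Ω] (s : Finset I) (bad : I → Ω → Prop)
    [∀ i ω, Decidable (bad i ω)] (δ : ℝ)
    (h : ∀ i ∈ s, ((univ.filter (fun ω => bad i ω)).card : ℝ) ≤ δ * Fintype.card Ω) :
    ∃ ω, ((s.filter (fun i => bad i ω)).card : ℝ) ≤ δ * s.card := by
  classical
  by_contra hcon
  push Not at hcon
  have h1 : ∑ ω : Ω, δ * (s.card : ℝ) < ∑ ω : Ω, ((s.filter (fun i => bad i ω)).card : ℝ) := by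
    apply Finset.sum_lt_sum_of_nonempty Finset.univ_nonempty
    intro ω _
    exact hcon ω
  have h2 : ∑ ω : Ω, ((s.filter (fun i => bad i ω)).card : ℝ) =
      ∑ i ∈ s, ((univ.filter (fun ω => bad i ω)).card : ℝ) := by
    simp_rw [← Finset.sum_boole]
    rw [Finset.sum_comm]
  rw [h2] at h1
  have h3 : ∑ i ∈ s, ((univ.filter (fun ω => bad i ω)).card : ℝ) ≤
      ∑ i ∈ s, δ * (Fintype.card Ω : ℝ) := Finset.sum_le_sum h
  rw [Finset.sum_const, nsmul_eq_mul] at h1 h3
  rw [Finset.card_univ] at h1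
  have h4 : (Fintype.card Ω : ℝ) * (δ * s.card) = s.card * (δ * Fintype.card Ω) := by ring
  linarith

end Pool.Agent.W2helper87.SR
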