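import Pool.Agent.W2helper87.SR.Det

/-!
# The asymptotic form of the deterministic theorem
-/

set_option autoImplicit false

namespace Pool.Agent.W2helper87.SR

open Finset Pool.Agent.H162R2.Sparse Pool.Agent.H162R2.AG

theorem sum_half (J : ℕ) (x : ℝ) :
    ∑ j ∈ range J, x / 2 ^ (j + 1) = x - x / 2 ^ J := by
  induction J with
  | zero => simp
  | succ J ih =>
    rw [sum_range_succ, ih, pow_succ]
    have : (2 : ℝ) ^ J ≠ 0 := by positivity
    field_simp
    ring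

/-- the numerical part -/
theorem numbers (K ε A : ℝ) (hK : 1 ≤ K) (hε : 0 < ε) (hA : 0 < A) (J : ℕ) (κ : ℝ)
    (hκ : κ = ε / (8 * (J + 1))) (hJ : 32 * K ^ 2 ≤ ε ^ 2 * 2 ^ J) :
    ∃ C X : ℝ, 0 < C ∧ 1 ≤ X ∧ ∀ (n D : ℕ), X ≤ Real.log n → C * Real.log n ≤ D →
      (D : ℝ) + 2 ≤ n →
      ∀ (D' : ℕ) (η : ℝ), D' = ⌊(D : ℝ) - ε * Real.sqrt (D * Real.log n)⌋₊ →
      η = κ * Real.sqrt (D * Real.log n) →
      (D' : ℝ) ≤ D - ε * Real.sqrt (D * Real.log n) ∧ η ≤ D / 2 ∧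
      34 * (2 * A) * (1 + Real.log D) ≤ D ∧
      ∃ mj dj : ℕ → ℕ, (∀ j < J, 1 ≤ dj j ∧ dj j ≤ n ∧ (D' : ℝ) / 2 ^ (j + 1) + η ≤ dj j) ∧
        ((D' : ℝ) / 2 ^ J + η ≤ dj J) ∧
        (∀ j < J, (dj j : ℝ) + K * Real.log n + 2 * A + η ≤ mj j) ∧
        ((∑ j ∈ range J, mj j : ℕ) : ℝ) + dj J + (K * Real.sqrt (dj J * Real.log n) +
          K * Real.log n) + η + 2 * A ≤ D := by
  -- `D` is larger than a multiple of its logarithm
  obtain ⟨x₀, hx₀⟩ : ∃ x₀ : ℝ, ∀ x : ℝ, x₀ ≤ x → 34 * (2 * A) * (1 + Real.log x) ≤ x := by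
    have h1 : Filter.Tendsto (fun x : ℝ => (1 + Real.log x) / x) Filter.atTop (nhds 0) := by
      have h2 : Filter.Tendsto (fun x : ℝ => Real.log x / x) Filter.atTop (nhds 0) :=
        Real.isLittleO_log_id_atTop.tendsto_div_nhds_zero
      have h3 : Filter.Tendsto (fun x : ℝ => 1 / x) Filter.atTop (nhds 0) := by
        simpa using tendsto_inv_atTop_zero (𝕜 := ℝ)
      have h4 := h3.add h2
      rw [add_zero] at h4
      refine h4.congr (fun x => ?_)
      ring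
    have h5 : ∀ᶠ x : ℝ in Filter.atTop, (1 + Real.log x) / x < 1 / (34 * (2 * A)) :=
      h1.eventually_lt_const (by positivity)
    obtain ⟨x₁, hx₁⟩ := Filter.eventually_atTop.1 h5
    refine ⟨max x₁ 1, fun x hx => ?_⟩
    have hx1 : 0 < x := lt_of_lt_of_le zero_lt_one ((le_max_right _ _).trans hx)
    have h6 := hx₁ x ((le_max_left _ _).trans hx)
    rw [div_lt_div_iff₀ hx1 (by positivity)] at h6
    linarith
  have hJ0 : (0 : ℝ) < J + 1 := by positivity
  have hκ0 : 0 < κ := by rw [hκ]; positivity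
  set C : ℝ := 1 + ε ^ 2 + (κ * 2 ^ (J + 1)) ^ 2 + (8 * (J + 1) * K / ε) ^ 2 with hC
  have hC0 : 0 < C := by positivity
  set X : ℝ := 1 + |x₀| + 2 ^ (J + 2) + 8 * (J + 1) * (2 * A + 3) / ε with hX
  have hXpos : 0 ≤ 8 * (J + 1) * (2 * A + 3) / ε := by positivity
  have h2J : (0 : ℝ) < 2 ^ (J + 2) := by positivity
  refine ⟨C, X, hC0, by rw [hX]; linarith [abs_nonneg x₀], ?_⟩
  intro n D hn hD hDn D' η hD' hη
  have hl1 : 1 ≤ Real.log n := by
    have := abs_nonneg x₀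
    linarith
  have hl0 : 0 < Real.log n := by linarith
  have hC1 : 1 ≤ C := by
    have : 0 ≤ ε ^ 2 := by positivity
    have : 0 ≤ (κ * 2 ^ (J + 1)) ^ 2 := by positivity
    have : 0 ≤ (8 * (J + 1) * K / ε) ^ 2 := by positivity
    linarith
  have hDl : Real.log n ≤ D := by nlinarith
  have hD0 : (0 : ℝ) < D := by linarith
  set S := Real.sqrt (D * Real.log n) with hS
  have hS0 : 0 ≤ S := Real.sqrt_nonneg _
  have hSS : S ^ 2 = D * Real.log n := Real.sq_sqrt (by positivity)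
  -- the main comparisons
  have hcomp : ∀ y : ℝ, 0 ≤ y → y ^ 2 ≤ C → y * Real.log n ≤ S ∧ y * S ≤ D := by
    intro y hy hyC
    constructor
    · apply Real.le_sqrt_of_sq_le
      have h1 : y ^ 2 * Real.log n ≤ C * Real.log n := by gcongr
      nlinarith
    · have h1 : y ^ 2 * Real.log n ≤ D := by
        have : y ^ 2 * Real.log n ≤ C * Real.log n := by gcongr
        linarith
      have h2 : (y * S) ^ 2 ≤ (D : ℝ) ^ 2 := by
        rw [mul_pow, hSS]
        nlinarith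
      exact le_of_sq_le_sq h2 hD0.le
  have hlS : Real.log n ≤ S := by
    have := (hcomp 1 zero_le_one (by linarith)).1
    linarith
  have c1 : ε * S ≤ D := (hcomp ε hε.le (by
    rw [hC]
    have : 0 ≤ (κ * 2 ^ (J + 1)) ^ 2 := by positivity
    have : 0 ≤ (8 * (J + 1) * K / ε) ^ 2 := by positivity
    linarith)).2
  have c2 : κ * 2 ^ (J + 1) * S ≤ D := (hcomp (κ * 2 ^ (J + 1)) (by positivity) (by
    rw [hC]
    have : 0 ≤ ε ^ 2 := by positivity
    have : 0 ≤ (8 * (J + 1) * K / ε) ^ 2 := by positivity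
    linarith)).2
  have c3 : 8 * (J + 1) * K / ε * Real.log n ≤ S := (hcomp (8 * (J + 1) * K / ε) (by positivity) (by
    rw [hC]
    have : 0 ≤ ε ^ 2 := by positivity
    have : 0 ≤ (κ * 2 ^ (J + 1)) ^ 2 := by positivity
    linarith)).1
  have hD'1 : (D' : ℝ) ≤ D - ε * S := by
    rw [hD']
    exact Nat.floor_le (by linarith)
  have hη0 : 0 ≤ η := by rw [hη]; positivity
  have hηJ : η ≤ D / 2 ^ (J + 1) := by
    rw [hη, le_div_iff₀ (by positivity)]
    linarith
  have h2J1 : (2 : ℝ) ≤ 2 ^ (J + 1) := by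
    have : (1 : ℝ) ≤ 2 ^ J := one_le_pow₀ (by norm_num)
    rw [pow_succ]
    linarith
  have hη2 : η ≤ D / 2 := by
    refine hηJ.trans ?_
    gcongr
  have hDx : x₀ ≤ D := by
    have := le_abs_self x₀
    linarith
  have hD2J : (2 : ℝ) ≤ D / 2 ^ (J + 1) := by
    rw [le_div_iff₀ (by positivity)]
    have h1 : (2 : ℝ) ^ (J + 2) = 2 * 2 ^ (J + 1) := by ring
    have h2 : (2 : ℝ) ^ (J + 2) ≤ D := by
      have := abs_nonneg x₀
      linarith
    linarith
  have hrest : (J + 1) * (2 * A + 3) ≤ ε / 8 * S := by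
    have h1 : 8 * (J + 1) * (2 * A + 3) / ε ≤ S := by
      have := abs_nonneg x₀
      linarith
    rw [div_le_iff₀ hε] at h1
    linarith
  have hlogS : (J + 1) * (K * Real.log n) ≤ ε / 8 * S := by
    have h1 : 8 * (J + 1) * K * Real.log n / ε ≤ S := by
      calc 8 * (J + 1) * K * Real.log n / ε = 8 * (J + 1) * K / ε * Real.log n := by ring
        _ ≤ S := c3
    rw [div_le_iff₀ hε] at h1
    linarith
  have hηS : (J + 1) * (2 * η) = ε / 4 * S := by
    rw [hη, hκ]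
    field_simp
    ring
  refine ⟨hD'1, hη2, hx₀ D hDx, ?_⟩
  let dj : ℕ → ℕ := fun j =>
    if j < J then ⌈(D' : ℝ) / 2 ^ (j + 1) + η⌉₊ + 1 else ⌈(D' : ℝ) / 2 ^ J + η⌉₊
  let mj : ℕ → ℕ := fun j => ⌈(dj j : ℝ) + K * Real.log n + 2 * A + η⌉₊
  have hdj : ∀ j < J, dj j = ⌈(D' : ℝ) / 2 ^ (j + 1) + η⌉₊ + 1 := fun j hj => if_pos hj
  have hdJ : dj J = ⌈(D' : ℝ) / 2 ^ J + η⌉₊ := if_neg (lt_irrefl J)
  have hD'D : (D' : ℝ) ≤ D := by
    have : 0 ≤ ε * S := by positivity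
    linarith
  have hupper : ∀ j < J, (dj j : ℝ) ≤ D' / 2 ^ (j + 1) + η + 2 := by
    intro j hj
    rw [hdj j hj]
    have := Nat.ceil_lt_add_one (show 0 ≤ (D' : ℝ) / 2 ^ (j + 1) + η by positivity)
    push_cast
    linarith
  refine ⟨mj, dj, ?_, ?_, ?_, ?_⟩
  · intro j hj
    refine ⟨by rw [hdj j hj]; omega, ?_, ?_⟩
    · have h1 := hupper j hj
      have h2 : (D' : ℝ) / 2 ^ (j + 1) ≤ D / 2 := by
        have e1 : (2 : ℝ) ≤ 2 ^ (j + 1) := by
          have : (1 : ℝ) ≤ 2 ^ j := one_le_pow₀ (by norm_num)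
          rw [pow_succ]
          linarith
        gcongr
      have h3 : (dj j : ℝ) ≤ n := by linarith
      exact_mod_cast h3
    · rw [hdj j hj]
      have := Nat.le_ceil ((D' : ℝ) / 2 ^ (j + 1) + η)
      push_cast
      linarith
  · rw [hdJ]
    exact Nat.le_ceil _
  · intro j _
    exact Nat.le_ceil _
  · have h1 : ((∑ j ∈ range J, mj j : ℕ) : ℝ) ≤
        ∑ j ∈ range J, ((D' : ℝ) / 2 ^ (j + 1) + (2 * η + K * Real.log n + 2 * A + 3)) := by
      push_cast
      apply sum_le_sum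
      intro j hj
      rw [mem_range] at hj
      have e1 := hupper j hj
      have e2 := Nat.ceil_lt_add_one (show 0 ≤ (dj j : ℝ) + K * Real.log n + 2 * A + η by
        positivity)
      have e3 : (mj j : ℝ) ≤ (dj j : ℝ) + K * Real.log n + 2 * A + η + 1 := e2.le
      linarith
    rw [sum_add_distrib, sum_half, sum_const, card_range, nsmul_eq_mul] at h1
    have h2 : (dj J : ℝ) ≤ D' / 2 ^ J + η + 1 := by
      rw [hdJ]
      exact (Nat.ceil_lt_add_one (by positivity)).le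
    have h3 : (dj J : ℝ) ≤ 2 * (D / 2 ^ J) := by
      have e1 : (D' : ℝ) / 2 ^ J ≤ D / 2 ^ J := by gcongr
      have e2 : (D : ℝ) / 2 ^ J = 2 * (D / 2 ^ (J + 1)) := by
        rw [pow_succ]
        field_simp
      linarith
    have h4 : K * Real.sqrt (dj J * Real.log n) ≤ ε / 4 * S := by
      have e1 : (K * Real.sqrt (dj J * Real.log n)) ^ 2 ≤ (ε / 4 * S) ^ 2 := by
        rw [mul_pow, mul_pow, hSS, Real.sq_sqrt (by positivity)]
        have e2 : (dj J : ℝ) * Real.log n ≤ 2 * (D / 2 ^ J) * Real.log n := by gcongr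
        have e3 : K ^ 2 * ((dj J : ℝ) * Real.log n) ≤ K ^ 2 * (2 * (D / 2 ^ J) * Real.log n) := by
          gcongr
        refine e3.trans ?_
        have e4 : K ^ 2 * (2 * (D / 2 ^ J) * Real.log n) =
            (32 * K ^ 2) * (D * Real.log n) / (16 * 2 ^ J) := by
          field_simp
          ring
        rw [e4, div_le_iff₀ (by positivity)]
        have e5 : 32 * K ^ 2 * (D * Real.log n) ≤ ε ^ 2 * 2 ^ J * (D * Real.log n) := by
          gcongr
        refine e5.trans (le_of_eq ?_)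
        ring
      exact le_of_sq_le_sq e1 (by positivity)
    have h5 : (J : ℝ) * (2 * η + K * Real.log n + 2 * A + 3) + (2 * η + K * Real.log n + 2 * A + 3) =
        (J + 1) * (2 * η) + (J + 1) * (K * Real.log n) + (J + 1) * (2 * A + 3) := by ring
    linarith

end Pool.Agent.W2helper87.SR
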