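import Pool.Agent.W2helper87.SR.Asym

/-!
# The asymptotic form of the deterministic theorem, continued
-/

set_option autoImplicit false

namespace Pool.Agent.W2helper87.SR

open Finset Pool.Agent.H162R2.Sparse Pool.Agent.H162R2.AG

theorem exp_log_rpow (n : ℕ) (hn : 0 < n) (x : ℝ) :
    Real.exp (-(x * Real.log n)) = (n : ℝ) ^ (-x) := by
  have : (0 : ℝ) < n := by exact_mod_cast hn
  rw [Real.rpow_def_of_pos this]
  congr 1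
  ring

theorem det_asym (ε : ℝ) (hε : 0 < ε) : ∃ κ : ℝ, 0 < κ ∧ κ ≤ 1 / 2 ∧ κ ≤ ε ^ 2 / 192 ∧
    ∀ A : ℝ, 0 < A →
    ∃ C : ℝ, 0 < C ∧ ∃ n₀ : ℕ, ∀ n : ℕ, n₀ ≤ n → ∀ (G : SimpleGraph (Fin n)) (D : ℕ),
      (∀ v, dg G v ≤ D) → C * Real.log n ≤ D → (D : ℝ) ≤ (n : ℝ) ^ κ →
      ((univ.filter (fun v => (D : ℝ) - ε * Real.sqrt (D * Real.log n) < dg G v)).card : ℝ) ≤
        (n : ℝ) ^ (1 - κ) →
      (∀ X : Finset (Fin n), (X.card : ℝ) ≤ 9 * (n : ℝ) ^ (1 - κ) → e2 G X ≤ A * X.card) →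
      ∀ L : Fin n → Fin n → Finset ℕ, (∀ a b, L a b = L b a) →
      (∀ a b, G.Adj a b → D ≤ (L a b).card) → LC G L := by
  classical
  obtain ⟨K, hK, hdet⟩ := det
  obtain ⟨J, hJ⟩ : ∃ J : ℕ, 32 * K ^ 2 ≤ ε ^ 2 * 2 ^ J := by
    obtain ⟨J, hJ⟩ := pow_unbounded_of_one_lt (32 * K ^ 2 / ε ^ 2) (one_lt_two (α := ℝ))
    refine ⟨J, ?_⟩
    rw [div_lt_iff₀ (by positivity)] at hJ
    linarith
  set κ₁ : ℝ := ε / (8 * (J + 1)) with hκ₁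
  have hκ₁0 : 0 < κ₁ := by positivity
  set κ : ℝ := min (κ₁ ^ 2 / 3) (1 / 2) with hκ
  have hκ0 : 0 < κ := lt_min (by positivity) (by norm_num)
  have hκ2 : κ ≤ 1 / 2 := min_le_right _ _
  have hκ3 : 3 * κ ≤ κ₁ ^ 2 := by
    have : κ ≤ κ₁ ^ 2 / 3 := min_le_left _ _
    linarith
  have hκ4 : κ ≤ ε ^ 2 / 192 := by
    have h1 : κ ≤ κ₁ ^ 2 / 3 := min_le_left _ _
    have h2 : κ₁ ≤ ε / 8 := by
      rw [hκ₁]
      have h3 : (0 : ℝ) ≤ J := Nat.cast_nonneg _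
      rw [div_le_div_iff₀ (by positivity) (by norm_num)]
      nlinarith
    have h3 : κ₁ ^ 2 ≤ (ε / 8) ^ 2 := by gcongr
    have h4 : (ε / 8) ^ 2 / 3 = ε ^ 2 / 192 := by ring
    linarith
  refine ⟨κ, hκ0, hκ2, hκ4, fun A hA => ?_⟩
  obtain ⟨C, X, hC, hX, hnum⟩ := numbers K ε A hK hε hA J κ₁ rfl hJ
  -- `n` large
  have ev1 : ∀ᶠ n : ℕ in Filter.atTop, X ≤ Real.log n :=
    (Real.tendsto_log_atTop.comp tendsto_natCast_atTop_atTop).eventually_ge_atTop X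
  have ev2 : ∀ᶠ n : ℕ in Filter.atTop, (2 : ℝ) ^ (2 ^ J) + (J + 1) ≤ (n : ℝ) ^ κ :=
    ((tendsto_rpow_atTop hκ0).comp tendsto_natCast_atTop_atTop).eventually_ge_atTop _
  obtain ⟨n₀, hn₀⟩ := Filter.eventually_atTop.1 (ev1.and (ev2.and (Filter.eventually_ge_atTop 16)))
  refine ⟨C, hC, n₀, fun n hn G D hdeg hCD hDn hfew hsp L hsym hL => ?_⟩
  obtain ⟨hlog, hbig, hn16⟩ := hn₀ n hn
  have hnr : (16 : ℝ) ≤ n := by exact_mod_cast hn16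
  have hn0 : (0 : ℝ) < n := by linarith
  have hn1 : (1 : ℝ) ≤ n := by linarith
  have hlog1 : 1 ≤ Real.log n := hX.trans hlog
  have hD0 : (0 : ℝ) < D := by
    have : 0 < C * Real.log n := by positivity
    linarith
  have hD0' : 0 < D := by exact_mod_cast hD0
  have hDn2 : (D : ℝ) + 2 ≤ n := by
    have h1 : (n : ℝ) ^ κ ≤ (n : ℝ) ^ (1 / 2 : ℝ) := Real.rpow_le_rpow_of_exponent_le hn1 hκ2
    have h2 : (n : ℝ) ^ (1 / 2 : ℝ) = Real.sqrt n := (Real.sqrt_eq_rpow _).symm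
    have h3 : Real.sqrt n * Real.sqrt n = n := Real.mul_self_sqrt hn0.le
    have h4 : (4 : ℝ) ≤ Real.sqrt n := by
      apply Real.le_sqrt_of_sq_le
      linarith
    nlinarith
  set S := Real.sqrt (D * Real.log n) with hS
  have hSS : S ^ 2 = D * Real.log n := Real.sq_sqrt (by positivity)
  obtain ⟨hD'1, hη2, ha, mj, dj, q1, q2, q3, q4⟩ := hnum n D hlog hCD hDn2 _ _ rfl rfl
  set η : ℝ := κ₁ * S with hη
  have hη0 : 0 ≤ η := by positivity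
  set D' : ℕ := ⌊(D : ℝ) - ε * S⌋₊ with hD'
  have hexp : Real.exp (-(η ^ 2) / D) = (n : ℝ) ^ (-(κ₁ ^ 2)) := by
    rw [← exp_log_rpow n (by omega)]
    congr 1
    rw [hη, mul_pow, hSS]
    field_simp
  have hn1κ : (1 : ℝ) ≤ (n : ℝ) ^ (1 - κ) := Real.one_le_rpow hn1 (by linarith)
  set m : ℕ := ⌈2 * (n : ℝ) ^ (1 - κ)⌉₊ with hm
  have hm1 : 2 * (n : ℝ) ^ (1 - κ) ≤ m := Nat.le_ceil _
  have hm2 : (m : ℝ) ≤ 3 * (n : ℝ) ^ (1 - κ) := by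
    have := (Nat.ceil_lt_add_one (show 0 ≤ 2 * (n : ℝ) ^ (1 - κ) by positivity)).le
    linarith
  refine hdet n G D D' J m A η mj dj (by omega) hD0' ?_ hdeg hA hη0 hη2 ?_ ?_ ?_ ha q1 q2 q3 q4
    L hsym hL
  · have : (D' : ℝ) ≤ D := by
      have : 0 ≤ ε * S := by positivity
      linarith
    exact_mod_cast this
  · have : (1 : ℝ) ≤ m := by linarith
    exact_mod_cast this
  · have e1 : (univ.filter (fun v => D' < dg G v)).card ≤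
        (univ.filter (fun v => (D : ℝ) - ε * S < dg G v)).card := by
      apply card_le_card
      intro v hv
      rw [mem_filter] at hv ⊢
      refine ⟨mem_univ _, ?_⟩
      exact Nat.lt_of_floor_lt hv.2
    have e2' : ((univ.filter (fun v => D' < dg G v)).card : ℝ) ≤ (n : ℝ) ^ (1 - κ) := by
      refine le_trans ?_ hfew
      exact_mod_cast e1
    have e3 : (n : ℝ) * (n : ℝ) ^ (-(κ₁ ^ 2)) ≤ (n : ℝ) ^ (1 - 3 * κ) := by
      have h1 : (n : ℝ) * (n : ℝ) ^ (-(κ₁ ^ 2)) = (n : ℝ) ^ (1 + -(κ₁ ^ 2)) := by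
        rw [Real.rpow_add hn0, Real.rpow_one]
      rw [h1]
      apply Real.rpow_le_rpow_of_exponent_le hn1
      linarith
    have e4 : (n : ℝ) ^ (1 - 3 * κ) ≤ (n : ℝ) ^ (1 - 2 * κ) := by
      apply Real.rpow_le_rpow_of_exponent_le hn1
      linarith
    have e5 : (n : ℝ) ^ κ * (n : ℝ) ^ (1 - 3 * κ) = (n : ℝ) ^ (1 - 2 * κ) := by
      rw [← Real.rpow_add hn0]
      congr 1
      ring
    have e6 : (n : ℝ) ^ κ * (n : ℝ) ^ (1 - 2 * κ) = (n : ℝ) ^ (1 - κ) := by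
      rw [← Real.rpow_add hn0]
      congr 1
      ring
    rw [hexp]
    have e7 : (n : ℝ) * 2 ^ (2 ^ J) * (n : ℝ) ^ (-(κ₁ ^ 2)) ≤
        2 ^ (2 ^ J) * (n : ℝ) ^ (1 - 2 * κ) := by
      calc (n : ℝ) * 2 ^ (2 ^ J) * (n : ℝ) ^ (-(κ₁ ^ 2)) =
            2 ^ (2 ^ J) * ((n : ℝ) * (n : ℝ) ^ (-(κ₁ ^ 2))) := by ring
        _ ≤ 2 ^ (2 ^ J) * (n : ℝ) ^ (1 - 2 * κ) := by
            have := e3.trans e4
            gcongr
    have e8 : (n : ℝ) * D * (J + 1) * (n : ℝ) ^ (-(κ₁ ^ 2)) ≤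
        (J + 1) * (n : ℝ) ^ (1 - 2 * κ) := by
      calc (n : ℝ) * D * (J + 1) * (n : ℝ) ^ (-(κ₁ ^ 2)) =
            (J + 1) * (D * ((n : ℝ) * (n : ℝ) ^ (-(κ₁ ^ 2)))) := by ring
        _ ≤ (J + 1) * ((n : ℝ) ^ κ * (n : ℝ) ^ (1 - 3 * κ)) := by gcongr
        _ = (J + 1) * (n : ℝ) ^ (1 - 2 * κ) := by rw [e5]
    have e9 : (2 ^ (2 ^ J) + ((J : ℝ) + 1)) * (n : ℝ) ^ (1 - 2 * κ) ≤ (n : ℝ) ^ (1 - κ) := by
      rw [← e6]
      gcongr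
    linarith
  · intro Y hY
    apply hsp Y
    have : (Y.card : ℝ) ≤ 3 * m := by exact_mod_cast hY
    linarith

end Pool.Agent.W2helper87.SR
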