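import Pool.Agent.W2helper87.SR.Split

/-!
# List edge colourings of locally sparse graphs with few vertices of large degree
-/

set_option autoImplicit false

namespace Pool.Agent.W2helper87.SR

open Finset Pool.Agent.H162R2.Sparse Pool.Agent.H162R2.AG

/-- the edges inside the classes of the first `j` coordinates -/
def lev {n J : ℕ} (H : SimpleGraph (Fin n)) (σ : Fin n → (Fin J → Bool)) (j : ℕ) :
    SimpleGraph (Fin n) where
  Adj a b := H.Adj a b ∧ ∀ i : Fin J, (i : ℕ) < j → σ a i = σ b i
  symm := ⟨fun _ _ h => ⟨h.1.symm, fun i hi => (h.2 i hi).symm⟩⟩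
  loopless := ⟨fun _ h => h.1.ne rfl⟩

/-- the edges between the two halves of the classes of the first `j` coordinates -/
def crs {n J : ℕ} (H : SimpleGraph (Fin n)) (σ : Fin n → (Fin J → Bool)) (j : Fin J) :
    SimpleGraph (Fin n) where
  Adj a b := H.Adj a b ∧ (∀ i : Fin J, i < j → σ a i = σ b i) ∧ σ a j ≠ σ b j
  symm := ⟨fun _ _ h => ⟨h.1.symm, fun i hi => (h.2.1 i hi).symm, h.2.2.symm⟩⟩
  loopless := ⟨fun _ h => h.1.ne rfl⟩

theorem levels {n J : ℕ} (H : SimpleGraph (Fin n)) (σ : Fin n → (Fin J → Bool)) (ψ : ℕ → ℕ)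
    (M : ℕ → ℕ) (L : Fin n → Fin n → Finset ℕ) (hM : ∀ j, M j ≤ M (j + 1))
    (hbase : LC (lev H σ J) (fun a b => (L a b).filter (fun c => M J ≤ ψ c)))
    (hcross : ∀ j : Fin J, LC (crs H σ j)
      (fun a b => (L a b).filter (fun c => M j ≤ ψ c ∧ ψ c < M (j + 1)))) :
    LC (lev H σ 0) (fun a b => (L a b).filter (fun c => M 0 ≤ ψ c)) := by
  have key : ∀ k : ℕ, k ≤ J → LC (lev H σ (J - k))
      (fun a b => (L a b).filter (fun c => M (J - k) ≤ ψ c)) := by
    intro k
    induction k with
    | zero =>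
      intro _
      exact hbase
    | succ k ih =>
      intro hk
      have h1 := ih (by omega)
      obtain ⟨j, hj⟩ : ∃ j, J - (k + 1) = j := ⟨_, rfl⟩
      have hj1 : J - k = j + 1 := by omega
      have hjJ : j < J := by omega
      rw [hj1] at h1
      rw [hj]
      refine LR (Fin n) (lev H σ j) (crs H σ ⟨j, hjJ⟩) (lev H σ (j + 1)) _
        (fun c => ψ c < M (j + 1)) ?_ ?_ ?_
      · rintro a b ⟨hab, hi⟩
        by_cases h : σ a ⟨j, hjJ⟩ = σ b ⟨j, hjJ⟩
        · right
          refine ⟨hab, fun i hij => ?_⟩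
          rcases Nat.lt_succ_iff_lt_or_eq.1 hij with h2 | h2
          · exact hi i h2
          · have : i = ⟨j, hjJ⟩ := Fin.ext h2
            rw [this]
            exact h
        · left
          exact ⟨hab, fun i hij => hi i hij, h⟩
      · have h2 := hcross ⟨j, hjJ⟩
        simp only at h2
        simpa only [Finset.filter_filter] using h2
      · have h3 : ∀ a b, ((L a b).filter (fun c => M j ≤ ψ c)).filter
            (fun c => ¬ ψ c < M (j + 1)) = (L a b).filter (fun c => M (j + 1) ≤ ψ c) := by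
          intro a b
          rw [Finset.filter_filter]
          apply Finset.filter_congr
          intro c _
          have := hM j
          constructor
          · rintro ⟨_, h4⟩
            exact not_lt.1 h4
          · intro h4
            exact ⟨this.trans h4, not_lt.2 h4⟩
        simp only [h3]
        exact h1
  have := key J le_rfl
  rwa [Nat.sub_self] at this

theorem LC_mono {V : Type} [Fintype V] [DecidableEq V] {G : SimpleGraph V}
    {L L' : V → V → Finset ℕ} (h : ∀ a b, G.Adj a b → L' a b ⊆ L a b) (hc : LC G L') : LC G L := by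
  obtain ⟨f, h1, h2, h3⟩ := hc
  exact ⟨f, h1, fun a b hab => h a b hab (h2 a b hab), h3⟩

theorem LC_sub {V : Type} [Fintype V] [DecidableEq V] {G G' : SimpleGraph V}
    {L : V → V → Finset ℕ} (h : ∀ a b, G'.Adj a b → G.Adj a b) (hc : LC G L) : LC G' L := by
  obtain ⟨f, h1, h2, h3⟩ := hc
  exact ⟨f, fun a b hab => h1 a b (h a b hab), fun a b hab => h2 a b (h a b hab),
    fun a b c hab hac hbc => h3 a b c (h a b hab) (h a c hac) hbc⟩

/-- a subset with exactly `D` elements, if there is one -/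
noncomputable def trim (D : ℕ) (S : Finset ℕ) : Finset ℕ := by
  classical exact if h : D ≤ S.card then (exists_subset_card_eq h).choose else S

theorem trim_subset (D : ℕ) (S : Finset ℕ) : trim D S ⊆ S := by
  unfold trim
  split_ifs with h
  · exact (exists_subset_card_eq h).choose_spec.1
  · exact subset_rfl

theorem trim_card (D : ℕ) (S : Finset ℕ) (h : D ≤ S.card) : (trim D S).card = D := by
  unfold trim
  rw [dif_pos h]
  exact (exists_subset_card_eq h).choose_spec.2

theorem card_Ico_fin (D a b : ℕ) (hb : b ≤ D) :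
    ((univ : Finset (Fin D)).filter (fun x : Fin D => a ≤ (x : ℕ) ∧ (x : ℕ) < b)).card = b - a := by
  rw [← card_image_of_injective _ Fin.val_injective]
  rw [← Nat.card_Ico]
  congr 1
  ext c
  rw [mem_image, mem_Ico]
  constructor
  · rintro ⟨x, hx, rfl⟩
    exact (mem_filter.1 hx).2
  · intro hc
    exact ⟨⟨c, by omega⟩, mem_filter.2 ⟨mem_univ _, hc⟩, rfl⟩

/-- Galvin's theorem -/
theorem galvin : ∃ C : ℝ, 1 ≤ C ∧ ∀ n : ℕ, 2 ≤ n → ∀ D : ℕ, 1 ≤ D → D ≤ n →
    ∀ (G : SimpleGraph (Fin n)) (σ : Fin n → Bool), (∀ a b, G.Adj a b → σ a ≠ σ b) →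
    (∀ v, dg G v ≤ D) → ∀ L : Fin n → Fin n → Finset ℕ, (∀ a b, L a b = L b a) →
    (∀ a b, G.Adj a b → (D : ℝ) + C * Real.log n ≤ (L a b).card) → LC G L := by
  obtain ⟨C, hC, h⟩ := tRGX
  refine ⟨C, hC, fun n hn D hD1 hDn G σ hσ hdeg L hsym hL => ?_⟩
  refine h n hn D hD1 hDn G σ hσ hdeg L hsym (fun _ _ => False) (fun _ _ h => h) 0 0
    (C * Real.log n) le_rfl (by positivity) ?_ ?_ ?_ ?_
  · intro v
    simp [cnt]
  · simp
  · intro a b hab _
    exact hL a b hab
  · intro a b _ hF
    exact absurd hF id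

/-- the combination: `T₀` may contain all vertices of degree more than `D'` -/
theorem det : ∃ K : ℝ, 1 ≤ K ∧ ∀ (n : ℕ) (G : SimpleGraph (Fin n)) (D D' J m : ℕ) (A η : ℝ)
    (mj dj : ℕ → ℕ), 2 ≤ n → 0 < D → D' ≤ D → (∀ v, dg G v ≤ D) → 0 < A → 0 ≤ η → η ≤ D / 2 →
    1 ≤ m →
    ((univ.filter (fun v => D' < dg G v)).card : ℝ) + n * 2 ^ (2 ^ J) * Real.exp (-(η ^ 2) / D) +
      n * D * (J + 1) * Real.exp (-(η ^ 2) / D) ≤ m →
    (∀ X : Finset (Fin n), X.card ≤ 3 * m → e2 G X ≤ A * X.card) →
    34 * (2 * A) * (1 + Real.log D) ≤ D →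
    (∀ j < J, 1 ≤ dj j ∧ dj j ≤ n ∧ (D' : ℝ) / 2 ^ (j + 1) + η ≤ dj j) →
    (D' : ℝ) / 2 ^ J + η ≤ dj J →
    (∀ j < J, (dj j : ℝ) + K * Real.log n + 2 * A + η ≤ mj j) →
    ((∑ j ∈ range J, mj j : ℕ) : ℝ) + dj J + (K * Real.sqrt (dj J * Real.log n) +
      K * Real.log n) + η + 2 * A ≤ D →
    ∀ L : Fin n → Fin n → Finset ℕ, (∀ a b, L a b = L b a) →
    (∀ a b, G.Adj a b → D ≤ (L a b).card) → LC G L := by
  classical
  obtain ⟨C₁, hC₁, hG⟩ := galvin
  obtain ⟨K₁, hK₁, hS⟩ := tS
  refine ⟨max C₁ K₁, le_trans hC₁ (le_max_left _ _), ?_⟩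
  set K := max C₁ K₁ with hK
  intro n G D D' J m A η mj dj hn hD hD' hdeg hA h0 h1 hm hT hsp ha hdj hdJ hmj hsum L hsym hL
  have hlog : 0 ≤ Real.log n := Real.log_natCast_nonneg n
  have hDr : (0 : ℝ) < D := by exact_mod_cast hD
  -- lists of size `D`
  set L0 : Fin n → Fin n → Finset ℕ := fun a b => trim D (L a b) with hL0
  have hsym0 : ∀ a b, L0 a b = L0 b a := by
    intro a b
    simp only [hL0]
    rw [hsym]
  have hcard0 : ∀ a b, G.Adj a b → (L0 a b).card = D := fun a b hab => trim_card D _ (hL a b hab)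
  refine LC_mono (fun a b _ => trim_subset D (L a b)) ?_
  change LC G L0
  -- the blocks of colours
  let M : ℕ → ℕ := fun j => ∑ i ∈ range j, mj i
  have hMs : ∀ j, M (j + 1) = M j + mj j := fun j => Finset.sum_range_succ _ _
  have hMm : ∀ j, M j ≤ M (j + 1) := fun j => by rw [hMs]; omega
  have hMmono : Monotone M := monotone_nat_of_le_succ hMm
  have hMJ : M J ≤ D := by
    have h2 : (M J : ℝ) ≤ D := by
      have h3 : (0 : ℝ) ≤ dj J := Nat.cast_nonneg _
      have h4 : 0 ≤ K * Real.sqrt (dj J * Real.log n) + K * Real.log n := by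
        have : 0 ≤ K := le_trans zero_le_one (le_trans hC₁ (le_max_left _ _))
        positivity
      simp only [M]
      linarith
    exact_mod_cast h2
  let B : Fin (J + 1) → Finset (Fin D) := fun j => univ.filter (fun x : Fin D =>
    M j ≤ (x : ℕ) ∧ (x : ℕ) < if (j : ℕ) < J then M (j + 1) else D)
  obtain ⟨σ, T1, hT1, hσ⟩ := exists_sigma J G D hD hdeg η h0 h1
  obtain ⟨ψ, T2, hT2, hψ⟩ := exists_psi G D hD hdeg η h0 h1 L0 hcard0 (J + 1) B
  -- the exceptional vertices
  set T0 : Finset (Fin n) := univ.filter (fun v => D' < dg G v) with hT0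
  have hTm : (T0 ∪ T1 ∪ T2).card ≤ m := by
    have e1 := card_union_le (T0 ∪ T1) T2
    have e2' := card_union_le T0 T1
    have e3 : ((T0 ∪ T1 ∪ T2).card : ℝ) ≤ T0.card + T1.card + T2.card := by
      exact_mod_cast e1.trans (Nat.add_le_add_right e2' _)
    have e4 : ((T0 ∪ T1 ∪ T2).card : ℝ) ≤ m := by
      push_cast at hT2
      linarith
    exact_mod_cast e4
  obtain ⟨T, hsub, hcard, hout⟩ := closure G (T0 ∪ T1 ∪ T2) m A hA hm hTm hsp
  have hT0n : ∀ v ∉ T, dg G v ≤ D' := by
    intro v hv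
    by_contra hcon
    exact hv (hsub (mem_union_left _ (mem_union_left _ (by
      rw [hT0, mem_filter]
      exact ⟨mem_univ _, not_le.1 hcon⟩))))
  have hT1n : ∀ v ∉ T, v ∉ T1 := fun v hv h => hv (hsub (mem_union_left _ (mem_union_right _ h)))
  have hT2n : ∀ v ∉ T, v ∉ T2 := fun v hv h => hv (hsub (mem_union_right _ h))
  -- the edges at the exceptional vertices
  have hdens : Dens (A_meetX G T) (2 * A) := by
    refine Pool.Agent.H892.LEC.dens_meet G T (2 * A) ?_ ?_
    · intro X hX
      have h2 := hsp X (by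
        have := card_le_card hX
        omega)
      unfold e2 at h2
      have h3 : A * (X.card : ℝ) ≤ 2 * A * X.card := by nlinarith [Nat.cast_nonneg (α := ℝ) X.card]
      linarith
    · intro v hv
      have := hout v hv
      linarith
  obtain ⟨f₁, k1, k2, k3⟩ := main_edge D (2 * A) ha L0 hsym0 (pr (A_meetX G T)).card
    (A_meetX G T) rfl (fun v => (dg_mono (G := G) (H := A_meetX G T)
      (fun x y hxy => ((A_meetX_adj G T x y).1 hxy).1) v).trans (hdeg v)) hdens
    (fun u v huv => (hcard0 u v huv.1).ge)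
  refine A_comb G T L0 f₁ k1 k2 k3 ?_
  set H := cutX G T with hH
  set U : Fin n → Finset ℕ := fun a => ((nb G a).filter (fun w => w ∈ T)).image (f₁ a) with hU
  set L1 : Fin n → Fin n → Finset ℕ := fun a b => L0 a b \ (U a ∪ U b) with hL1
  have hUc : ∀ a, a ∉ T → ((U a).card : ℝ) ≤ A := by
    intro a haT
    refine le_trans ?_ (hout a haT)
    exact_mod_cast card_image_le
  have hsym1 : ∀ a b, L1 a b = L1 b a := by
    intro a b
    simp only [hL1]
    rw [hsym0 a b, union_comm]
  have hfil : ∀ a b, H.Adj a b → ∀ P : ℕ → Prop, ∀ [DecidablePred P],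
      (((L0 a b).filter P).card : ℝ) - 2 * A ≤ (((L1 a b).filter P).card : ℝ) := by
    intro a b hab P _
    obtain ⟨hG', haT, hbT⟩ := (cutX_adj G T a b).1 hab
    have e1 : (L0 a b).filter P ⊆ (L1 a b).filter P ∪ (U a ∪ U b) := by
      intro c hc
      rw [mem_filter] at hc
      by_cases hcU : c ∈ U a ∪ U b
      · exact mem_union_right _ hcU
      · apply mem_union_left
        rw [mem_filter]
        exact ⟨mem_sdiff.2 ⟨hc.1, hcU⟩, hc.2⟩
    have e3 := card_le_card e1
    have e4 := card_union_le ((L1 a b).filter P) (U a ∪ U b)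
    have e5 := card_union_le (U a) (U b)
    have e6 : (((L0 a b).filter P).card : ℝ) ≤ ((L1 a b).filter P).card +
        ((U a).card + (U b).card) := by
      exact_mod_cast e3.trans (e4.trans (Nat.add_le_add_left e5 _))
    have := hUc a haT
    have := hUc b hbT
    linarith
  have hisol : ∀ (H' : SimpleGraph (Fin n)), (∀ a b, H'.Adj a b → H.Adj a b) → ∀ v ∈ T,
      dg H' v = 0 := by
    intro H' hH' v hv
    unfold dg
    rw [card_eq_zero, eq_empty_iff_forall_notMem]
    intro w hw
    rw [mem_nb] at hw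
    exact ((cutX_adj G T v w).1 (hH' v w hw)).2.1 hv
  -- all levels
  have hlev := levels H σ (fun c => (ψ c : ℕ)) M L1 hMm ?_ ?_
  · refine LC_mono (fun a b _ => filter_subset (fun c => M 0 ≤ (ψ c : ℕ)) _) ?_
    exact LC_sub (G := lev H σ 0)
      (fun a b hab => ⟨hab, fun i hi => absurd hi (Nat.not_lt_zero _)⟩) hlev
  · -- the last level
    refine hS n hn (dj J) (lev H σ J) ?_ _ ?_ (fun _ _ => False) (fun _ _ h => h) ?_ ?_ ?_
    · intro v
      by_cases hv : v ∈ T
      · rw [hisol (lev H σ J) (fun a b h => h.1) v hv]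
        exact Nat.zero_le _
      · have h2 := hσ v (hT1n v hv) {σ v}
        have h3 : nb (lev H σ J) v ⊆ (nb G v).filter (fun w => σ w ∈ ({σ v} : Finset _)) := by
          intro w hw
          rw [mem_nb] at hw
          rw [mem_filter, mem_nb, mem_singleton]
          refine ⟨((cutX_adj G T v w).1 hw.1).1, ?_⟩
          funext i
          exact (hw.2 i i.isLt).symm
        have h4 : (dg (lev H σ J) v : ℝ) ≤
            (((nb G v).filter (fun w => σ w ∈ ({σ v} : Finset _))).card : ℝ) := by
          exact_mod_cast card_le_card h3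
        rw [card_singleton] at h2
        have h5 : (dg G v : ℝ) ≤ D' := by exact_mod_cast hT0n v hv
        have h6 : (dg G v : ℝ) * (((1 : ℕ) : ℝ) / 2 ^ J) ≤ D' / 2 ^ J := by
          rw [Nat.cast_one, mul_one_div]
          gcongr
        have h7 : (dg (lev H σ J) v : ℝ) ≤ dj J := by linarith
        exact_mod_cast h7
    · intro a b
      rw [hsym1 a b]
    · intro v
      simp [cnt]
    · intro a b hab _
      obtain ⟨hG', haT, hbT⟩ := (cutX_adj G T a b).1 hab.1
      have h2 := hψ a (hT2n a haT) b hG' (Fin.last J)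
      have h3 : (B (Fin.last J)).card = D - M J := by
        have := card_Ico_fin D (M J) D le_rfl
        rw [← this]
        congr 1
        ext x
        simp only [B, Fin.val_last, lt_irrefl, if_false]
      have h4 : (L0 a b).filter (fun c => ψ c ∈ B (Fin.last J)) ⊆
          (L0 a b).filter (fun c => M J ≤ (ψ c : ℕ)) := by
        intro c hc
        rw [mem_filter] at hc ⊢
        have h5 := hc.2
        simp only [B, mem_filter, Fin.val_last] at h5
        exact ⟨hc.1, h5.2.1⟩
      have h5 : (((L0 a b).filter (fun c => ψ c ∈ B (Fin.last J))).card : ℝ) ≤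
          ((L0 a b).filter (fun c => M J ≤ (ψ c : ℕ))).card := by exact_mod_cast card_le_card h4
      have h6 := hfil a b hab.1 (fun c => M J ≤ (ψ c : ℕ))
      rw [h3, Nat.cast_sub hMJ] at h2
      have h7 : K₁ * Real.sqrt (dj J * Real.log n) + K₁ * Real.log n ≤
          K * Real.sqrt (dj J * Real.log n) + K * Real.log n := by
        have : K₁ ≤ K := le_max_right _ _
        gcongr
      have h8 : ((∑ j ∈ range J, mj j : ℕ) : ℝ) = (M J : ℝ) := rfl
      rw [h8] at hsum
      linarith
    · intro a b _ hF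
      exact absurd hF id
  · -- the bipartite graphs
    intro j
    obtain ⟨hd1, hd2, hd3⟩ := hdj j j.isLt
    refine hG n hn (dj j) hd1 hd2 (crs H σ j) (fun v => σ v j) (fun a b h => h.2.2) ?_ _ ?_ ?_
    · intro v
      by_cases hv : v ∈ T
      · rw [hisol (crs H σ j) (fun a b h => h.1) v hv]
        exact Nat.zero_le _
      · have h2 := hσ v (hT1n v hv) (blk (σ v) j)
        have h3 : nb (crs H σ j) v ⊆ (nb G v).filter (fun w => σ w ∈ blk (σ v) j) := by
          intro w hw
          rw [mem_nb] at hw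
          rw [mem_filter, mem_nb]
          refine ⟨((cutX_adj G T v w).1 hw.1).1, ?_⟩
          unfold blk
          rw [mem_filter]
          exact ⟨mem_univ _, fun i hi => (hw.2.1 i hi).symm, hw.2.2.symm⟩
        have h4 : (dg (crs H σ j) v : ℝ) ≤
            (((nb G v).filter (fun w => σ w ∈ blk (σ v) j)).card : ℝ) := by
          exact_mod_cast card_le_card h3
        rw [card_blk] at h2
        have h5 : (dg G v : ℝ) ≤ D' := by exact_mod_cast hT0n v hv
        have h6 : (dg G v : ℝ) * (1 / 2 ^ ((j : ℕ) + 1)) ≤ D' / 2 ^ ((j : ℕ) + 1) := by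
          rw [mul_one_div]
          gcongr
        have h7 : (dg (crs H σ j) v : ℝ) ≤ dj j := by linarith
        exact_mod_cast h7
    · intro a b
      rw [hsym1 a b]
    · intro a b hab
      obtain ⟨hG', haT, hbT⟩ := (cutX_adj G T a b).1 hab.1
      have h2 := hψ a (hT2n a haT) b hG' j.castSucc
      have hMj : M (j + 1) ≤ D := (hMmono (Nat.succ_le_of_lt j.isLt)).trans hMJ
      have h3 : (B j.castSucc).card = M (j + 1) - M j := by
        have := card_Ico_fin D (M j) (M (j + 1)) hMj
        rw [← this]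
        congr 1
        ext x
        simp only [B, Fin.val_castSucc, j.isLt, if_true]
      have h4 : (L0 a b).filter (fun c => ψ c ∈ B j.castSucc) ⊆
          (L0 a b).filter (fun c => M j ≤ (ψ c : ℕ) ∧ (ψ c : ℕ) < M (j + 1)) := by
        intro c hc
        rw [mem_filter] at hc ⊢
        have h5 := hc.2
        simp only [B, mem_filter, Fin.val_castSucc, j.isLt, if_true] at h5
        exact ⟨hc.1, h5.2⟩
      have h5 : (((L0 a b).filter (fun c => ψ c ∈ B j.castSucc)).card : ℝ) ≤
          ((L0 a b).filter (fun c => M j ≤ (ψ c : ℕ) ∧ (ψ c : ℕ) < M (j + 1))).card := by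
        exact_mod_cast card_le_card h4
      have h6 := hfil a b hab.1 (fun c => M j ≤ (ψ c : ℕ) ∧ (ψ c : ℕ) < M (j + 1))
      rw [h3, hMs, Nat.add_sub_cancel_left] at h2
      have h7 := hmj j j.isLt
      have h8 : C₁ * Real.log n ≤ K * Real.log n := by
        have : C₁ ≤ K := le_max_left _ _
        gcongr
      linarith

end Pool.Agent.W2helper87.SR
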