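import Pool.Agent.W2helper87.SR.Tot

/-!
# Total list colourings of sparse random graphs extending a precoloured distance-3 matching
-/

set_option autoImplicit false

namespace Pool.Agent.W2helper87.SR

open Finset Pool.Agent.H162R2.Sparse Pool.Agent.H162R2.AG
open Pool.Agent.Results.MP_db9399_co.SparseLargeDegrees

/-- the property of the random graph -/
def GdTot {n : ℕ} (G : SimpleGraph (Fin n)) : Prop :=
  ∀ D : ℕ, (∀ v, dg G v ≤ D) → (∃ v, dg G v = D) →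
    ∀ H : SimpleGraph (Fin n), IsDistThreeMatching G H → ∀ k, D + 1 ≤ k → ListExtends G H k

theorem total_random : ∃ c C : ℝ, 0 < c ∧ c ≤ 1 ∧ 0 < C ∧ ∃ N : ℕ, ∀ n : ℕ, N ≤ n →
    ∀ q : Sym2 (Fin n) → ℝ, (∀ e, 0 ≤ q e ∧ q e ≤ (n : ℝ) ^ (c - 1)) →
    (∃ v, C * Real.log n ≤ mu q v) → 1 - (n : ℝ) ^ (-c) ≤ pb q GdTot := by
  obtain ⟨κ, C', hκ0, hκ4, hC', n₀, hd⟩ := total_typ
  obtain ⟨N, hN⟩ := typical κ C' hκ0 hκ4
  refine ⟨κ / 4, max 8 (2 * C'), by positivity, by linarith,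
    lt_of_lt_of_le (by norm_num) (le_max_left _ _), max N (max n₀ 1), fun n hn q hq hmax => ?_⟩
  have hn1 : 1 ≤ n := le_trans (le_max_right _ _) (le_trans (le_max_right _ _) hn)
  have hnr : (1 : ℝ) ≤ n := by exact_mod_cast hn1
  have hpow : (n : ℝ) ^ (κ / 4 - 1) ≤ 1 := Real.rpow_le_one_of_one_le_of_nonpos hnr (by linarith)
  refine (hN n (le_trans (le_max_left _ _) hn) q hq hmax).trans ?_
  apply pb_mono q (fun e => ⟨(hq e).1, (hq e).2.trans hpow⟩)
  intro G hG D hD1 hD2 H hH k hk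
  exact hd n (le_trans (le_max_left _ _) (le_trans (le_max_right _ _) hn)) G hG D hD1 hD2 H hH k hk

end Pool.Agent.W2helper87.SR
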