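import Pool.Agent.W2helper87.SR.Rg

/-!
# Random graphs with independent edges: degrees and local sparsity
-/

set_option autoImplicit false

namespace Pool.Agent.W2helper87.SR

open Finset Pool.Agent.H162R2.Sparse Pool.Agent.H162R2.AG

theorem dg_upper {n : ℕ} (q : Sym2 (Fin n) → ℝ) (hq : ∀ e, 0 ≤ q e ∧ q e ≤ 1) (v : Fin n)
    (μ t : ℝ) (hμ : 0 < μ) (hv : mu q v ≤ μ) (ht : 0 ≤ t) (ht2 : t ≤ 2 * μ) :
    pb q (fun G => mu q v + t ≤ dg G v) ≤ Real.exp (-(t ^ 2) / (4 * μ)) := by
  have hmu0 : 0 ≤ mu q v := by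
    unfold mu
    exact sum_nonneg fun w _ => (hq _).1
  set lam : ℝ := t / (2 * μ) with hlam
  have hl0 : 0 ≤ lam := by positivity
  have hl1 : lam ≤ 1 := by
    rw [hlam, div_le_one (by positivity)]
    exact ht2
  have h1 : pb q (fun G => mu q v + t ≤ dg G v) ≤
      pb q (fun G => Real.exp (lam * (mu q v + t)) ≤ Real.exp (lam * dg G v)) := by
    apply pb_mono q hq
    intro G hG
    apply Real.exp_le_exp.2
    exact mul_le_mul_of_nonneg_left hG hl0
  have h2 := markov q hq (fun G => Real.exp (lam * dg G v)) (fun G => (Real.exp_pos _).le)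
    (Real.exp (lam * (mu q v + t))) (Real.exp_pos _)
  have h3 := mgf_dg q hq v lam
  have h4 : Real.exp lam - 1 ≤ lam + lam ^ 2 := by
    have := exp_le_quad (x := lam) (by rw [abs_of_nonneg hl0]; exact hl1)
    linarith
  calc pb q (fun G => mu q v + t ≤ dg G v)
      ≤ ex q (fun G => Real.exp (lam * dg G v)) / Real.exp (lam * (mu q v + t)) := h1.trans h2
    _ ≤ Real.exp (mu q v * (Real.exp lam - 1)) / Real.exp (lam * (mu q v + t)) := by gcongr
    _ = Real.exp (mu q v * (Real.exp lam - 1) - lam * (mu q v + t)) := by rw [Real.exp_sub]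
    _ ≤ Real.exp (-(t ^ 2) / (4 * μ)) := by
        apply Real.exp_le_exp.2
        have h5 : mu q v * (Real.exp lam - 1) ≤ mu q v * (lam + lam ^ 2) := by gcongr
        have h6 : mu q v * lam ^ 2 ≤ μ * lam ^ 2 := by gcongr
        have h7 : μ * lam ^ 2 - lam * t = -(t ^ 2) / (4 * μ) := by
          rw [hlam]
          field_simp
          ring
        linarith

theorem dg_lower {n : ℕ} (q : Sym2 (Fin n) → ℝ) (hq : ∀ e, 0 ≤ q e ∧ q e ≤ 1) (v : Fin n)
    (μ t : ℝ) (hμ : 0 < μ) (hv : mu q v ≤ μ) (ht : 0 ≤ t) (ht2 : t ≤ 2 * μ) :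
    pb q (fun G => (dg G v : ℝ) ≤ mu q v - t) ≤ Real.exp (-(t ^ 2) / (4 * μ)) := by
  have hmu0 : 0 ≤ mu q v := by
    unfold mu
    exact sum_nonneg fun w _ => (hq _).1
  set lam : ℝ := t / (2 * μ) with hlam
  have hl0 : 0 ≤ lam := by positivity
  have hl1 : lam ≤ 1 := by
    rw [hlam, div_le_one (by positivity)]
    exact ht2
  have h1 : pb q (fun G => (dg G v : ℝ) ≤ mu q v - t) ≤
      pb q (fun G => Real.exp (-lam * (mu q v - t)) ≤ Real.exp (-lam * dg G v)) := by
    apply pb_mono q hq
    intro G hG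
    apply Real.exp_le_exp.2
    nlinarith
  have h2 := markov q hq (fun G => Real.exp (-lam * dg G v)) (fun G => (Real.exp_pos _).le)
    (Real.exp (-lam * (mu q v - t))) (Real.exp_pos _)
  have h3 := mgf_dg q hq v (-lam)
  have h4 : Real.exp (-lam) - 1 ≤ -lam + lam ^ 2 := by
    have := exp_le_quad (x := -lam) (by rw [abs_neg, abs_of_nonneg hl0]; exact hl1)
    rw [neg_sq] at this
    linarith
  calc pb q (fun G => (dg G v : ℝ) ≤ mu q v - t)
      ≤ ex q (fun G => Real.exp (-lam * dg G v)) / Real.exp (-lam * (mu q v - t)) := h1.trans h2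
    _ ≤ Real.exp (mu q v * (Real.exp (-lam) - 1)) / Real.exp (-lam * (mu q v - t)) := by gcongr
    _ = Real.exp (mu q v * (Real.exp (-lam) - 1) - -lam * (mu q v - t)) := by rw [Real.exp_sub]
    _ ≤ Real.exp (-(t ^ 2) / (4 * μ)) := by
        apply Real.exp_le_exp.2
        have h5 : mu q v * (Real.exp (-lam) - 1) ≤ mu q v * (-lam + lam ^ 2) := by gcongr
        have h6 : mu q v * lam ^ 2 ≤ μ * lam ^ 2 := by gcongr
        have h7 : μ * lam ^ 2 - lam * t = -(t ^ 2) / (4 * μ) := by
          rw [hlam]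
          field_simp
          ring
        linarith

/-! ### Local sparsity -/

/-- the pair lies in `X` -/
def inX {n : ℕ} (X : Finset (Fin n)) (e : Sym2 (Fin n)) : Prop := ∀ v ∈ e, v ∈ X

theorem inX_mk {n : ℕ} (X : Finset (Fin n)) (v w : Fin n) : inX X s(v, w) ↔ v ∈ X ∧ w ∈ X := by
  unfold inX
  simp

open Classical in
theorem e2_eq_sum {n : ℕ} (G : SimpleGraph (Fin n)) (X : Finset (Fin n)) :
    e2 G X = ∑ e : Pr n, (if e.1 ∈ G.edgeSet then (if inX X e.1 then 2 else 0) else 0) := by
  have h1 : ((pr G).filter (fun e => e.1 ∈ X ∧ e.2 ∈ X)).card =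
      ∑ v ∈ X, ((nb G v).filter (fun w => w ∈ X)).card := by
    rw [Finset.card_eq_sum_card_fiberwise (f := Prod.fst) (t := X)]
    · apply Finset.sum_congr rfl
      intro u hu
      apply Finset.card_bij (fun e _ => e.2)
      · intro e he
        rw [Finset.mem_filter, mem_filter, mem_pr] at he
        rw [mem_filter, mem_nb, ← he.2]
        exact ⟨he.1.1, he.1.2.2⟩
      · intro e he f hf h
        rw [Finset.mem_filter] at he hf
        exact Prod.ext (he.2.trans hf.2.symm) h
      · intro w hw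
        rw [mem_filter, mem_nb] at hw
        refine ⟨(u, w), ?_, rfl⟩
        rw [Finset.mem_filter, mem_filter, mem_pr]
        exact ⟨⟨hw.1, hu, hw.2⟩, rfl⟩
    · intro e he
      rw [Finset.mem_coe, mem_filter] at he
      exact he.2.1
  have h2 : ∀ v ∈ X, (((nb G v).filter (fun w => w ∈ X)).card : ℝ) =
      ∑ e : Pr n, (if v ∈ e.1 then (if e.1 ∈ G.edgeSet ∧ inX X e.1 then (1 : ℝ) else 0) else 0) := by
    intro v hv
    refine Eq.trans ?_ ((sum_at (fun e => if e ∈ G.edgeSet ∧ inX X e then (1 : ℝ) else 0) v).symm.trans ?_)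
    · rw [Finset.sum_boole]
      congr 2
      ext w
      simp only [mem_filter, mem_univ, mem_erase, SimpleGraph.mem_edgeSet, mem_nb, inX_mk]
      constructor
      · rintro ⟨h, hw⟩
        exact ⟨⟨h.ne', trivial⟩, h, hv, hw⟩
      · rintro ⟨_, h, _, hw⟩
        exact ⟨h, hw⟩
    · apply sum_congr rfl
      intro e _
      by_cases h1 : v ∈ e.1 <;> simp [h1]
  unfold e2
  rw [h1]
  push_cast
  rw [sum_congr rfl h2, sum_comm]
  apply sum_congr rfl
  intro e _
  by_cases h3 : e.1 ∈ G.edgeSet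
  · by_cases h4 : inX X e.1
    · simp only [h3, h4, and_self, if_true]
      rw [Finset.sum_boole]
      obtain ⟨e, he⟩ := e
      induction e with
      | _ a b =>
        have hab : a ≠ b := by
          intro h
          apply he
          simpa using h
        have h5 : X.filter (fun v => v ∈ s(a, b)) = {a, b} := by
          ext v
          simp only [mem_filter, Sym2.mem_iff, mem_insert, mem_singleton]
          constructor
          · exact fun h => h.2
          · intro h
            refine ⟨?_, h⟩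
            have h6 := (inX_mk X a b).1 h4
            rcases h with rfl | rfl
            · exact h6.1
            · exact h6.2
        rw [h5, card_pair hab]
        norm_num
    · simp [h4]
  · simp [h3]

theorem e2_top_le {n : ℕ} (X : Finset (Fin n)) : e2 (⊤ : SimpleGraph (Fin n)) X ≤ (X.card : ℝ) ^ 2 := by
  classical
  unfold e2
  have h1 : (pr (⊤ : SimpleGraph (Fin n))).filter (fun e => e.1 ∈ X ∧ e.2 ∈ X) ⊆ X ×ˢ X := by
    intro e he
    rw [mem_filter] at he
    rw [mem_product]
    exact he.2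
  have h2 := card_le_card h1
  rw [card_product] at h2
  have h3 : (((pr (⊤ : SimpleGraph (Fin n))).filter (fun e => e.1 ∈ X ∧ e.2 ∈ X)).card : ℝ) ≤
      X.card * X.card := by exact_mod_cast h2
  nlinarith

open Classical in
theorem e2_top_eq {n : ℕ} (X : Finset (Fin n)) :
    e2 (⊤ : SimpleGraph (Fin n)) X = ∑ e : Pr n, (if inX X e.1 then 2 else 0) := by
  rw [e2_eq_sum]
  apply sum_congr rfl
  intro e _
  have he : e.1 ∈ (⊤ : SimpleGraph (Fin n)).edgeSet := by
    rw [SimpleGraph.edgeSet_top]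
    exact e.2
  rw [if_pos he]

theorem sparse_one {n : ℕ} (q : Sym2 (Fin n) → ℝ) (hq : ∀ e, 0 ≤ q e ∧ q e ≤ 1) (qm : ℝ)
    (hqm : ∀ e, q e ≤ qm) (X : Finset (Fin n)) (A lam : ℝ) (hlam : 0 ≤ lam) :
    pb q (fun G => A * X.card < e2 G X) ≤
      Real.exp (qm * Real.exp (2 * lam) * X.card ^ 2 / 2 - lam * (A * X.card)) := by
  classical
  have hqm0 : 0 ≤ qm ∨ n ≤ 0 := by
    rcases Nat.eq_zero_or_pos n with h | h
    · right
      omega
    · left
      exact (hq s(⟨0, h⟩, ⟨0, h⟩)).1.trans (hqm _)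
  have h1 : pb q (fun G => A * X.card < e2 G X) ≤
      pb q (fun G => Real.exp (lam * (A * X.card)) ≤ Real.exp (lam * e2 G X)) := by
    apply pb_mono q hq
    intro G hG
    apply Real.exp_le_exp.2
    exact mul_le_mul_of_nonneg_left hG.le hlam
  have h2 := markov q hq (fun G => Real.exp (lam * e2 G X)) (fun G => (Real.exp_pos _).le)
    (Real.exp (lam * (A * X.card))) (Real.exp_pos _)
  have h3 : (fun G : SimpleGraph (Fin n) => Real.exp (lam * e2 G X)) =
      (fun G => Real.exp (∑ e : Pr n, if e.1 ∈ G.edgeSet then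
        (if inX X e.1 then 2 * lam else 0) else 0)) := by
    funext G
    congr 1
    rw [e2_eq_sum, mul_sum]
    apply sum_congr rfl
    intro e _
    split_ifs <;> ring
  have h4 : ex q (fun G => Real.exp (lam * e2 G X)) ≤
      Real.exp (∑ e : Pr n, q e.1 * (Real.exp (if inX X e.1 then 2 * lam else 0) - 1)) := by
    rw [h3, mgf q (fun e => if inX X e.1 then 2 * lam else 0)]
    exact prod_le_exp q hq _
  have h5 : ∑ e : Pr n, q e.1 * (Real.exp (if inX X e.1 then 2 * lam else 0) - 1) ≤
      qm * Real.exp (2 * lam) * X.card ^ 2 / 2 := by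
    have e1 : ∑ e : Pr n, q e.1 * (Real.exp (if inX X e.1 then 2 * lam else 0) - 1) ≤
        ∑ e : Pr n, qm * Real.exp (2 * lam) / 2 * (if inX X e.1 then 2 else 0) := by
      apply sum_le_sum
      intro e _
      by_cases h : inX X e.1
      · simp only [h, if_true]
        have k1 := hqm e.1
        have k2 := (hq e.1).1
        have k3 : 1 ≤ Real.exp (2 * lam) := Real.one_le_exp (by positivity)
        have k4 : q e.1 * (Real.exp (2 * lam) - 1) ≤ qm * Real.exp (2 * lam) := by
          have : q e.1 * (Real.exp (2 * lam) - 1) ≤ q e.1 * Real.exp (2 * lam) := by nlinarith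
          have : q e.1 * Real.exp (2 * lam) ≤ qm * Real.exp (2 * lam) := by gcongr
          linarith
        linarith
      · simp [h]
    rw [← mul_sum, ← e2_top_eq] at e1
    refine e1.trans ?_
    rcases hqm0 with h | h
    · have e3 := e2_top_le X
      have e4 : 0 ≤ qm * Real.exp (2 * lam) / 2 := by positivity
      calc qm * Real.exp (2 * lam) / 2 * e2 ⊤ X ≤ qm * Real.exp (2 * lam) / 2 * (X.card : ℝ) ^ 2 := by
            gcongr
        _ = qm * Real.exp (2 * lam) * X.card ^ 2 / 2 := by ring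
    · have h6 : X = ∅ := by
        have : n = 0 := by omega
        subst this
        exact Finset.eq_empty_of_isEmpty X
      rw [h6]
      simp [e2]
  calc pb q (fun G => A * X.card < e2 G X)
      ≤ ex q (fun G => Real.exp (lam * e2 G X)) / Real.exp (lam * (A * X.card)) := h1.trans h2
    _ ≤ Real.exp (qm * Real.exp (2 * lam) * X.card ^ 2 / 2) / Real.exp (lam * (A * X.card)) := by
        gcongr
        exact h4.trans (Real.exp_le_exp.2 h5)
    _ = _ := by rw [Real.exp_sub]

/-- all sets of at most `R` vertices are sparse -/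
theorem sparse_all {n : ℕ} (q : Sym2 (Fin n) → ℝ) (hq : ∀ e, 0 ≤ q e ∧ q e ≤ 1) (qm : ℝ)
    (hqm : ∀ e, q e ≤ qm) (A lam R : ℝ) (hlam : 0 ≤ lam) (hn : 6 ≤ n)
    (h1 : qm * Real.exp (2 * lam) * R / 2 ≤ 1) (h2 : 3 * Real.log n ≤ lam * A) :
    pb q (fun G => ¬ ∀ X : Finset (Fin n), (X.card : ℝ) ≤ R → e2 G X ≤ A * X.card) ≤ 1 / n := by
  classical
  have hnr : (6 : ℝ) ≤ n := by exact_mod_cast hn
  have hn0 : (0 : ℝ) < n := by linarith
  have hqm0 : 0 ≤ qm := (hq s(⟨0, by omega⟩, ⟨0, by omega⟩)).1.trans (hqm _)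
  set y : ℝ := Real.exp (1 - 3 * Real.log n) with hy
  have hy0 : 0 < y := Real.exp_pos _
  have hyv : y ≤ 3 / n ^ 3 := by
    rw [hy, Real.exp_sub]
    have e1 : Real.exp (3 * Real.log n) = (n : ℝ) ^ 3 := by
      rw [mul_comm, Real.exp_mul, Real.exp_log hn0]
      norm_num
    rw [e1]
    have e3 := Real.exp_one_lt_d9
    gcongr
    linarith
  have h3 : pb q (fun G => ¬ ∀ X : Finset (Fin n), (X.card : ℝ) ≤ R → e2 G X ≤ A * X.card) ≤
      ∑ X ∈ (univ : Finset (Finset (Fin n))).erase ∅, y ^ X.card := by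
    have e1 : pb q (fun G => ¬ ∀ X : Finset (Fin n), (X.card : ℝ) ≤ R → e2 G X ≤ A * X.card) ≤
        pb q (fun G => ∃ X ∈ ((univ : Finset (Finset (Fin n))).erase ∅),
          ((X.card : ℝ) ≤ R ∧ A * X.card < e2 G X)) := by
      apply pb_mono q hq
      intro G hG
      push Not at hG
      obtain ⟨X, hX, hX2⟩ := hG
      refine ⟨X, ?_, hX, hX2⟩
      rw [mem_erase]
      refine ⟨?_, mem_univ _⟩
      rintro rfl
      simp [e2] at hX2
    refine e1.trans ((pb_exists_le q hq _ _).trans ?_)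
    apply sum_le_sum
    intro X _
    by_cases hX : (X.card : ℝ) ≤ R
    · have e3 : pb q (fun G => (X.card : ℝ) ≤ R ∧ A * X.card < e2 G X) ≤
          pb q (fun G => A * X.card < e2 G X) := pb_mono q hq fun G h => h.2
      refine e3.trans ((sparse_one q hq qm hqm X A lam hlam).trans ?_)
      rw [hy, ← Real.exp_nat_mul]
      apply Real.exp_le_exp.2
      have e4 : qm * Real.exp (2 * lam) * X.card ^ 2 / 2 ≤ X.card := by
        have e5 : qm * Real.exp (2 * lam) * X.card / 2 ≤ qm * Real.exp (2 * lam) * R / 2 := by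
          gcongr
        have e6 : qm * Real.exp (2 * lam) * (X.card : ℝ) ^ 2 / 2 =
          qm * Real.exp (2 * lam) * X.card / 2 * X.card := by ring
        rw [e6]
        have e7 : qm * Real.exp (2 * lam) * X.card / 2 ≤ 1 := e5.trans h1
        have e8 : (0 : ℝ) ≤ X.card := Nat.cast_nonneg _
        nlinarith
      have e9 : (3 * Real.log n) * X.card ≤ (lam * A) * X.card := by gcongr
      nlinarith
    · have e3 : pb q (fun G => (X.card : ℝ) ≤ R ∧ A * X.card < e2 G X) ≤
          pb q (fun _ => False) := pb_mono q hq fun G h => absurd h.1 hX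
      have e4 : pb q (fun _ => False) = 0 := by
        rw [pb_eq]
        simp [ex]
      rw [e4] at e3
      exact e3.trans (by positivity)
  have h4 : ∑ X ∈ (univ : Finset (Finset (Fin n))).erase ∅, y ^ X.card = (1 + y) ^ n - 1 := by
    have e1 : ∑ X : Finset (Fin n), y ^ X.card = (y + 1) ^ n := by
      have := Fintype.sum_pow_mul_eq_add_pow (Fin n) y 1
      simpa using this
    have e3 := Finset.add_sum_erase (univ : Finset (Finset (Fin n))) (fun X => y ^ X.card)
      (mem_univ ∅)
    rw [e1] at e3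
    simp only [card_empty, pow_zero] at e3
    rw [add_comm 1 y]
    linarith
  have h5 : (1 + y) ^ n ≤ Real.exp (n * y) := by
    rw [Real.exp_nat_mul]
    have := Real.add_one_le_exp y
    gcongr
    linarith
  have h6 : (n : ℝ) * y ≤ 3 / n ^ 2 := by
    calc (n : ℝ) * y ≤ n * (3 / n ^ 3) := by gcongr
      _ = 3 / n ^ 2 := by field_simp
  have h7 : (3 : ℝ) / n ^ 2 ≤ 1 / (2 * n) := by
    rw [div_le_div_iff₀ (by positivity) (by positivity)]
    nlinarith
  have h8 : (n : ℝ) * y ≤ 1 := by
    refine (h6.trans h7).trans ?_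
    rw [div_le_one (by positivity)]
    linarith
  have h9 := exp_le_quad (x := (n : ℝ) * y) (by rw [abs_of_nonneg (by positivity)]; exact h8)
  have h10 : ((n : ℝ) * y) ^ 2 ≤ n * y := by
    have : 0 ≤ (n : ℝ) * y := by positivity
    nlinarith
  have h11 : (1 : ℝ) / (2 * n) + 1 / (2 * n) = 1 / n := by
    field_simp
    ring
  rw [h4] at h3
  linarith

end Pool.Agent.W2helper87.SR
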