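import Pool.Agent.H892.LEC.Few

/-!
# Closing a small set of vertices of a locally sparse graph
-/

set_option autoImplicit false

namespace Pool.Agent.W2helper87.SR

open Finset Pool.Agent.H162R2.Sparse Pool.Agent.H162R2.AG

variable {V : Type} [Fintype V] [DecidableEq V]

/-- the number of ordered adjacent pairs inside `X` -/
noncomputable def e2 (G : SimpleGraph V) (X : Finset V) : ℝ :=
  (((pr G).filter (fun e => e.1 ∈ X ∧ e.2 ∈ X)).card : ℝ)

theorem e2_insert (G : SimpleGraph V) (X : Finset V) (v : V) (hv : v ∉ X) :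
    e2 G X + 2 * (((nb G v).filter (fun w => w ∈ X)).card : ℝ) ≤ e2 G (insert v X) := by
  classical
  unfold e2
  set N := (nb G v).filter (fun w => w ∈ X) with hN
  have h1 : (pr G).filter (fun e => e.1 ∈ X ∧ e.2 ∈ X) ∪
      (N.image (fun w => (v, w)) ∪ N.image (fun w => (w, v))) ⊆
      (pr G).filter (fun e => e.1 ∈ insert v X ∧ e.2 ∈ insert v X) := by
    intro e he
    rw [mem_union, mem_union, mem_image, mem_image] at he
    rw [mem_filter, mem_pr]
    rcases he with he | ⟨w, hw, rfl⟩ | ⟨w, hw, rfl⟩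
    · rw [mem_filter, mem_pr] at he
      exact ⟨he.1, mem_insert_of_mem he.2.1, mem_insert_of_mem he.2.2⟩
    · rw [hN, mem_filter, mem_nb] at hw
      exact ⟨hw.1, mem_insert_self _ _, mem_insert_of_mem hw.2⟩
    · rw [hN, mem_filter, mem_nb] at hw
      exact ⟨hw.1.symm, mem_insert_of_mem hw.2, mem_insert_self _ _⟩
  have h2 := card_le_card h1
  have hd1 : Disjoint (N.image (fun w => (v, w))) (N.image (fun w => (w, v))) := by
    rw [disjoint_left]
    intro e he he'
    rw [mem_image] at he he'
    obtain ⟨w, hw, rfl⟩ := he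
    obtain ⟨w', hw', h⟩ := he'
    rw [hN, mem_filter] at hw'
    have : w' = v := (Prod.ext_iff.1 h).1
    rw [this] at hw'
    exact hv hw'.2
  have hd2 : Disjoint ((pr G).filter (fun e => e.1 ∈ X ∧ e.2 ∈ X))
      (N.image (fun w => (v, w)) ∪ N.image (fun w => (w, v))) := by
    rw [disjoint_left]
    intro e he he'
    rw [mem_filter] at he
    rw [mem_union, mem_image, mem_image] at he'
    rcases he' with ⟨w, hw, rfl⟩ | ⟨w, hw, rfl⟩
    · exact hv he.2.1
    · exact hv he.2.2
  rw [card_union_of_disjoint hd2, card_union_of_disjoint hd1,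
    card_image_of_injective _ (fun a b h => (Prod.ext_iff.1 h).2),
    card_image_of_injective _ (fun a b h => (Prod.ext_iff.1 h).1)] at h2
  have h3 : ((((pr G).filter (fun e => e.1 ∈ X ∧ e.2 ∈ X)).card + (N.card + N.card) : ℕ) : ℝ) ≤
      (((pr G).filter (fun e => e.1 ∈ insert v X ∧ e.2 ∈ insert v X)).card : ℝ) := by
    exact_mod_cast h2
  push_cast at h3
  linarith

/-- a small set is contained in a small set such that all other vertices have few neighbours
in it -/
theorem closure (G : SimpleGraph V) (T : Finset V) (m : ℕ) (A : ℝ) (hA : 0 < A) (hm : 1 ≤ m)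
    (hT : T.card ≤ m) (hs : ∀ X : Finset V, X.card ≤ 3 * m → e2 G X ≤ A * X.card) :
    ∃ T' : Finset V, T ⊆ T' ∧ T'.card ≤ 2 * m ∧
      ∀ v ∉ T', (((nb G v).filter (fun w => w ∈ T')).card : ℝ) ≤ A := by
  classical
  let F : Finset (Finset V) := univ.filter (fun X => T ⊆ X ∧ X.card ≤ 3 * m ∧
    2 * A * ((X.card : ℝ) - T.card) ≤ e2 G X)
  have hTF : T ∈ F := by
    simp only [F]
    rw [mem_filter]
    refine ⟨mem_univ _, subset_rfl, by omega, ?_⟩
    rw [sub_self, mul_zero]
    unfold e2
    positivity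
  obtain ⟨T', hT', hmax⟩ := F.exists_max_image card ⟨T, hTF⟩
  simp only [F] at hT'
  rw [mem_filter] at hT'
  obtain ⟨-, hsub, h3, hd⟩ := hT'
  have hcard : T'.card ≤ 2 * m := by
    have h1 := hs T' h3
    have h2 : 2 * A * ((T'.card : ℝ) - T.card) ≤ A * T'.card := hd.trans h1
    have h4 : (T'.card : ℝ) ≤ 2 * T.card := by
      have : A * (T'.card : ℝ) ≤ A * (2 * T.card) := by nlinarith
      exact le_of_mul_le_mul_left this hA
    have h5 : T'.card ≤ 2 * T.card := by exact_mod_cast h4
    omega
  refine ⟨T', hsub, hcard, fun v hv => ?_⟩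
  by_contra hcon
  push Not at hcon
  have h6 : insert v T' ∈ F := by
    simp only [F]
    rw [mem_filter, card_insert_of_notMem hv]
    refine ⟨mem_univ _, hsub.trans (subset_insert _ _), by omega, ?_⟩
    have h7 := e2_insert G T' v hv
    push_cast
    nlinarith
  have h8 := hmax _ h6
  rw [card_insert_of_notMem hv] at h8
  omega

end Pool.Agent.W2helper87.SR
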