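import Pool.Agent.W2helper87.SR.Det

/-!
# Colouring from randomly split lists outside a small exceptional set
-/

set_option autoImplicit false

namespace Pool.Agent.W2helper87.SR

open Finset Pool.Agent.H162R2.Sparse Pool.Agent.H162R2.AG

/-- All edges outside a small set `T₁` can be coloured, even if every vertex outside a larger set
forbids a few colours. -/
theorem split_col : ∃ K : ℝ, 1 ≤ K ∧ ∀ (n : ℕ) (F : SimpleGraph (Fin n)) (D D' J : ℕ) (A η : ℝ)
    (mj dj : ℕ → ℕ), 2 ≤ n → 0 < D → D' ≤ D → (∀ v, dg F v ≤ D') → 0 ≤ A → 0 ≤ η → η ≤ D / 2 →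
    (∀ j < J, 1 ≤ dj j ∧ dj j ≤ n ∧ (D' : ℝ) / 2 ^ (j + 1) + η ≤ dj j) →
    (D' : ℝ) / 2 ^ J + η ≤ dj J →
    (∀ j < J, (dj j : ℝ) + K * Real.log n + 2 * A + η ≤ mj j) →
    ((∑ j ∈ range J, mj j : ℕ) : ℝ) + dj J + (K * Real.sqrt (dj J * Real.log n) +
      K * Real.log n) + η + 2 * A ≤ D →
    ∀ L0 : Fin n → Fin n → Finset ℕ, (∀ a b, L0 a b = L0 b a) →
    (∀ a b, F.Adj a b → (L0 a b).card = D) →
    ∃ T₁ : Finset (Fin n), (T₁.card : ℝ) ≤ n * 2 ^ (2 ^ J) * Real.exp (-(η ^ 2) / D) +
      n * D * (J + 1) * Real.exp (-(η ^ 2) / D) ∧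
      ∀ T : Finset (Fin n), T₁ ⊆ T → ∀ W : Fin n → Finset ℕ, (∀ v ∉ T, ((W v).card : ℝ) ≤ A) →
        LC (cutX F T) (fun x y => L0 x y \ (W x ∪ W y)) := by
  classical
  obtain ⟨C₁, hC₁, hG⟩ := galvin
  obtain ⟨K₁, hK₁, hS⟩ := tS
  refine ⟨max C₁ K₁, le_trans hC₁ (le_max_left _ _), ?_⟩
  set K := max C₁ K₁ with hK
  intro n F D D' J A η mj dj hn hD hD' hdeg' hA h0 h1 hdj hdJ hmj hsum L0 hsym0 hcard0
  have hlog : 0 ≤ Real.log n := Real.log_natCast_nonneg n
  have hDr : (0 : ℝ) < D := by exact_mod_cast hD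
  have hdeg : ∀ v, dg F v ≤ D := fun v => (hdeg' v).trans hD'
  let M : ℕ → ℕ := fun j => ∑ i ∈ range j, mj i
  have hMs : ∀ j, M (j + 1) = M j + mj j := fun j => Finset.sum_range_succ _ _
  have hMm : ∀ j, M j ≤ M (j + 1) := fun j => by rw [hMs]; omega
  have hMmono : Monotone M := monotone_nat_of_le_succ hMm
  have hMJ : M J ≤ D := by
    have h2 : (M J : ℝ) ≤ D := by
      have h3 : (0 : ℝ) ≤ dj J := Nat.cast_nonneg _
      have h4 : 0 ≤ K * Real.sqrt (dj J * Real.log n) + K * Real.log n := by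
        have : 0 ≤ K := le_trans zero_le_one (le_trans hC₁ (le_max_left _ _))
        positivity
      simp only [M]
      linarith
    exact_mod_cast h2
  let B : Fin (J + 1) → Finset (Fin D) := fun j => univ.filter (fun x : Fin D =>
    M j ≤ (x : ℕ) ∧ (x : ℕ) < if (j : ℕ) < J then M (j + 1) else D)
  obtain ⟨σ, T1, hT1, hσ⟩ := exists_sigma J F D hD hdeg η h0 h1
  obtain ⟨ψ, T2, hT2, hψ⟩ := exists_psi F D hD hdeg η h0 h1 L0 hcard0 (J + 1) B
  refine ⟨T1 ∪ T2, ?_, fun T hsub W hW => ?_⟩
  · have e1 : ((T1 ∪ T2).card : ℝ) ≤ T1.card + T2.card := by exact_mod_cast card_union_le T1 T2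
    push_cast at hT2
    linarith
  have hT1n : ∀ v ∉ T, v ∉ T1 := fun v hv h => hv (hsub (mem_union_left _ h))
  have hT2n : ∀ v ∉ T, v ∉ T2 := fun v hv h => hv (hsub (mem_union_right _ h))
  set H := cutX F T with hH
  set L1 : Fin n → Fin n → Finset ℕ := fun a b => L0 a b \ (W a ∪ W b) with hL1
  have hsym1 : ∀ a b, L1 a b = L1 b a := by
    intro a b
    simp only [hL1]
    rw [hsym0 a b, union_comm]
  have hfil : ∀ a b, H.Adj a b → ∀ P : ℕ → Prop, ∀ [DecidablePred P],
      (((L0 a b).filter P).card : ℝ) - 2 * A ≤ (((L1 a b).filter P).card : ℝ) := by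
    intro a b hab P _
    obtain ⟨hG', haT, hbT⟩ := (cutX_adj F T a b).1 hab
    have e1 : (L0 a b).filter P ⊆ (L1 a b).filter P ∪ (W a ∪ W b) := by
      intro c hc
      rw [mem_filter] at hc
      by_cases hcU : c ∈ W a ∪ W b
      · exact mem_union_right _ hcU
      · apply mem_union_left
        rw [mem_filter]
        exact ⟨mem_sdiff.2 ⟨hc.1, hcU⟩, hc.2⟩
    have e3 := card_le_card e1
    have e4 := card_union_le ((L1 a b).filter P) (W a ∪ W b)
    have e5 := card_union_le (W a) (W b)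
    have e6 : (((L0 a b).filter P).card : ℝ) ≤ ((L1 a b).filter P).card +
        ((W a).card + (W b).card) := by
      exact_mod_cast e3.trans (e4.trans (Nat.add_le_add_left e5 _))
    have := hW a haT
    have := hW b hbT
    linarith
  have hisol : ∀ (H' : SimpleGraph (Fin n)), (∀ a b, H'.Adj a b → H.Adj a b) → ∀ v ∈ T,
      dg H' v = 0 := by
    intro H' hH' v hv
    unfold dg
    rw [card_eq_zero, eq_empty_iff_forall_notMem]
    intro w hw
    rw [mem_nb] at hw
    exact ((cutX_adj F T v w).1 (hH' v w hw)).2.1 hv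
  -- all levels
  have hlev := levels H σ (fun c => (ψ c : ℕ)) M L1 hMm ?_ ?_
  · refine LC_mono (fun a b _ => filter_subset (fun c => M 0 ≤ (ψ c : ℕ)) _) ?_
    exact LC_sub (G := lev H σ 0)
      (fun a b hab => ⟨hab, fun i hi => absurd hi (Nat.not_lt_zero _)⟩) hlev
  · -- the last level
    refine hS n hn (dj J) (lev H σ J) ?_ _ ?_ (fun _ _ => False) (fun _ _ h => h) ?_ ?_ ?_
    · intro v
      by_cases hv : v ∈ T
      · rw [hisol (lev H σ J) (fun a b h => h.1) v hv]
        exact Nat.zero_le _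
      · have h2 := hσ v (hT1n v hv) {σ v}
        have h3 : nb (lev H σ J) v ⊆ (nb F v).filter (fun w => σ w ∈ ({σ v} : Finset _)) := by
          intro w hw
          rw [mem_nb] at hw
          rw [mem_filter, mem_nb, mem_singleton]
          refine ⟨((cutX_adj F T v w).1 hw.1).1, ?_⟩
          funext i
          exact (hw.2 i i.isLt).symm
        have h4 : (dg (lev H σ J) v : ℝ) ≤
            (((nb F v).filter (fun w => σ w ∈ ({σ v} : Finset _))).card : ℝ) := by
          exact_mod_cast card_le_card h3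
        rw [card_singleton] at h2
        have h5 : (dg F v : ℝ) ≤ D' := by exact_mod_cast hdeg' v
        have h6 : (dg F v : ℝ) * (((1 : ℕ) : ℝ) / 2 ^ J) ≤ D' / 2 ^ J := by
          rw [Nat.cast_one, mul_one_div]
          gcongr
        have h7 : (dg (lev H σ J) v : ℝ) ≤ dj J := by linarith
        exact_mod_cast h7
    · intro a b
      rw [hsym1 a b]
    · intro v
      simp [cnt]
    · intro a b hab _
      obtain ⟨hG', haT, hbT⟩ := (cutX_adj F T a b).1 hab.1
      have h2 := hψ a (hT2n a haT) b hG' (Fin.last J)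
      have h3 : (B (Fin.last J)).card = D - M J := by
        have := card_Ico_fin D (M J) D le_rfl
        rw [← this]
        congr 1
        ext x
        simp only [B, Fin.val_last, lt_irrefl, if_false]
      have h4 : (L0 a b).filter (fun c => ψ c ∈ B (Fin.last J)) ⊆
          (L0 a b).filter (fun c => M J ≤ (ψ c : ℕ)) := by
        intro c hc
        rw [mem_filter] at hc ⊢
        have h5 := hc.2
        simp only [B, mem_filter, Fin.val_last] at h5
        exact ⟨hc.1, h5.2.1⟩
      have h5 : (((L0 a b).filter (fun c => ψ c ∈ B (Fin.last J))).card : ℝ) ≤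
          ((L0 a b).filter (fun c => M J ≤ (ψ c : ℕ))).card := by exact_mod_cast card_le_card h4
      have h6 := hfil a b hab.1 (fun c => M J ≤ (ψ c : ℕ))
      rw [h3, Nat.cast_sub hMJ] at h2
      have h7 : K₁ * Real.sqrt (dj J * Real.log n) + K₁ * Real.log n ≤
          K * Real.sqrt (dj J * Real.log n) + K * Real.log n := by
        have : K₁ ≤ K := le_max_right _ _
        gcongr
      have h8 : ((∑ j ∈ range J, mj j : ℕ) : ℝ) = (M J : ℝ) := rfl
      rw [h8] at hsum
      linarith
    · intro a b _ hF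
      exact absurd hF id
  · -- the bipartite graphs
    intro j
    obtain ⟨hd1, hd2, hd3⟩ := hdj j j.isLt
    refine hG n hn (dj j) hd1 hd2 (crs H σ j) (fun v => σ v j) (fun a b h => h.2.2) ?_ _ ?_ ?_
    · intro v
      by_cases hv : v ∈ T
      · rw [hisol (crs H σ j) (fun a b h => h.1) v hv]
        exact Nat.zero_le _
      · have h2 := hσ v (hT1n v hv) (blk (σ v) j)
        have h3 : nb (crs H σ j) v ⊆ (nb F v).filter (fun w => σ w ∈ blk (σ v) j) := by
          intro w hw
          rw [mem_nb] at hw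
          rw [mem_filter, mem_nb]
          refine ⟨((cutX_adj F T v w).1 hw.1).1, ?_⟩
          unfold blk
          rw [mem_filter]
          exact ⟨mem_univ _, fun i hi => (hw.2.1 i hi).symm, hw.2.2.symm⟩
        have h4 : (dg (crs H σ j) v : ℝ) ≤
            (((nb F v).filter (fun w => σ w ∈ blk (σ v) j)).card : ℝ) := by
          exact_mod_cast card_le_card h3
        rw [card_blk] at h2
        have h5 : (dg F v : ℝ) ≤ D' := by exact_mod_cast hdeg' v
        have h6 : (dg F v : ℝ) * (1 / 2 ^ ((j : ℕ) + 1)) ≤ D' / 2 ^ ((j : ℕ) + 1) := by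
          rw [mul_one_div]
          gcongr
        have h7 : (dg (crs H σ j) v : ℝ) ≤ dj j := by linarith
        exact_mod_cast h7
    · intro a b
      rw [hsym1 a b]
    · intro a b hab
      obtain ⟨hG', haT, hbT⟩ := (cutX_adj F T a b).1 hab.1
      have h2 := hψ a (hT2n a haT) b hG' j.castSucc
      have hMj : M (j + 1) ≤ D := (hMmono (Nat.succ_le_of_lt j.isLt)).trans hMJ
      have h3 : (B j.castSucc).card = M (j + 1) - M j := by
        have := card_Ico_fin D (M j) (M (j + 1)) hMj
        rw [← this]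
        congr 1
        ext x
        simp only [B, Fin.val_castSucc, j.isLt, if_true]
      have h4 : (L0 a b).filter (fun c => ψ c ∈ B j.castSucc) ⊆
          (L0 a b).filter (fun c => M j ≤ (ψ c : ℕ) ∧ (ψ c : ℕ) < M (j + 1)) := by
        intro c hc
        rw [mem_filter] at hc ⊢
        have h5 := hc.2
        simp only [B, mem_filter, Fin.val_castSucc, j.isLt, if_true] at h5
        exact ⟨hc.1, h5.2⟩
      have h5 : (((L0 a b).filter (fun c => ψ c ∈ B j.castSucc)).card : ℝ) ≤
          ((L0 a b).filter (fun c => M j ≤ (ψ c : ℕ) ∧ (ψ c : ℕ) < M (j + 1))).card := by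
        exact_mod_cast card_le_card h4
      have h6 := hfil a b hab.1 (fun c => M j ≤ (ψ c : ℕ) ∧ (ψ c : ℕ) < M (j + 1))
      rw [h3, hMs, Nat.add_sub_cancel_left] at h2
      have h7 := hmj j j.isLt
      have h8 : C₁ * Real.log n ≤ K * Real.log n := by
        have : C₁ ≤ K := le_max_left _ _
        gcongr
      linarith

end Pool.Agent.W2helper87.SR
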