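import Pool.Agent.W2helper87.SR.Tail
import Pool.Agent.W2helper87.SR.Clos

/-!
# Random graphs with independent edges: exponential moments
-/

set_option autoImplicit false

namespace Pool.Agent.W2helper87.SR

open Finset Pool.Agent.H162R2.Sparse Pool.Agent.H162R2.AG

/-- the pairs of different vertices -/
abbrev Pr (n : ℕ) : Type := {e : Sym2 (Fin n) // ¬ e.IsDiag}

/-- the weight of a graph -/
noncomputable def wt {n : ℕ} (q : Sym2 (Fin n) → ℝ) (G : SimpleGraph (Fin n)) : ℝ := by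
  classical exact ∏ e : {e : Sym2 (Fin n) // ¬ e.IsDiag}, if e.1 ∈ G.edgeSet then q e.1 else 1 - q e.1

/-- probability -/
noncomputable def pb {n : ℕ} (q : Sym2 (Fin n) → ℝ) (P : SimpleGraph (Fin n) → Prop) : ℝ := by
  classical exact ∑ G : SimpleGraph (Fin n), if P G then
    (∏ e : {e : Sym2 (Fin n) // ¬ e.IsDiag}, if e.1 ∈ G.edgeSet then q e.1 else 1 - q e.1) else 0

/-- expectation -/
noncomputable def ex {n : ℕ} (q : Sym2 (Fin n) → ℝ) (f : SimpleGraph (Fin n) → ℝ) : ℝ :=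
  ∑ G : SimpleGraph (Fin n), f G * wt q G

open Classical in
/-- graphs and their indicator functions -/
noncomputable def grEquiv (n : ℕ) : SimpleGraph (Fin n) ≃ (Pr n → Bool) where
  toFun G := fun e => decide (e.1 ∈ G.edgeSet)
  invFun ψ := SimpleGraph.fromEdgeSet {e | ∃ h : ¬ e.IsDiag, ψ ⟨e, h⟩ = true}
  left_inv G := by
    ext a b
    rw [SimpleGraph.fromEdgeSet_adj]
    constructor
    · rintro ⟨⟨h, h1⟩, h2⟩
      simpa using h1
    · intro h
      refine ⟨⟨?_, ?_⟩, h.ne⟩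
      · simpa using h.ne
      · simpa using h
  right_inv ψ := by
    funext e
    obtain ⟨e, he⟩ := e
    simp only [SimpleGraph.edgeSet_fromEdgeSet, Set.mem_sdiff, Set.mem_ofPred_eq]
    cases h : ψ ⟨e, he⟩
    · simp [h]
    · simp [h, he]

theorem sum_graphs {n : ℕ} (a b : Pr n → ℝ) [∀ (G : SimpleGraph (Fin n)) (e : Pr n),
    Decidable (e.1 ∈ G.edgeSet)] :
    ∑ G : SimpleGraph (Fin n), ∏ e : Pr n, (if e.1 ∈ G.edgeSet then a e else b e) =
      ∏ e : Pr n, (a e + b e) := by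
  classical
  have h1 : ∏ e : Pr n, (a e + b e) = ∏ e : Pr n, ∑ x : Bool, (if x = true then a e else b e) := by
    apply prod_congr rfl
    intro e _
    simp
  rw [h1, ← sum_fun_prod (fun (e : Pr n) (x : Bool) => if x = true then a e else b e)]
  refine Fintype.sum_equiv (grEquiv n) _ _ (fun G => ?_)
  apply prod_congr rfl
  intro e _
  simp [grEquiv]

/-- exponential moments -/
theorem mgf {n : ℕ} (q : Sym2 (Fin n) → ℝ) (s : Pr n → ℝ) [∀ (G : SimpleGraph (Fin n)) (e : Pr n),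
    Decidable (e.1 ∈ G.edgeSet)] :
    ex q (fun G => Real.exp (∑ e : Pr n, if e.1 ∈ G.edgeSet then s e else 0)) =
      ∏ e : Pr n, (1 + q e.1 * (Real.exp (s e) - 1)) := by
  classical
  have h1 : ∀ G : SimpleGraph (Fin n),
      Real.exp (∑ e : Pr n, if e.1 ∈ G.edgeSet then s e else 0) * wt q G =
      ∏ e : Pr n, (if e.1 ∈ G.edgeSet then Real.exp (s e) * q e.1 else 1 - q e.1) := by
    intro G
    unfold wt
    rw [Real.exp_sum, ← Finset.prod_mul_distrib]
    apply prod_congr rfl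
    intro e _
    by_cases h : e.1 ∈ G.edgeSet
    · simp [h]
    · simp [h]
  unfold ex
  rw [Finset.sum_congr rfl (fun G _ => h1 G)]
  rw [sum_graphs (fun e => Real.exp (s e) * q e.1) (fun e => 1 - q e.1)]
  apply prod_congr rfl
  intro e _
  ring

section
variable {n : ℕ} (q : Sym2 (Fin n) → ℝ)

theorem wt_nonneg (hq : ∀ e, 0 ≤ q e ∧ q e ≤ 1) (G : SimpleGraph (Fin n)) : 0 ≤ wt q G := by
  classical
  unfold wt
  apply Finset.prod_nonneg
  intro e _
  split_ifs
  · exact (hq e.1).1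
  · linarith [(hq e.1).2]

theorem ex_one : ex q (fun _ => 1) = 1 := by
  classical
  have h := mgf q (fun _ => 0)
  simpa using h

open Classical in
theorem pb_eq (P : SimpleGraph (Fin n) → Prop) :
    pb q P = ex q (fun G => if P G then 1 else 0) := by
  unfold pb ex wt
  apply sum_congr rfl
  intro G _
  by_cases h : P G
  · simp only [if_pos h, one_mul]
  · simp only [if_neg h, zero_mul]

theorem ex_mono (hq : ∀ e, 0 ≤ q e ∧ q e ≤ 1) {f g : SimpleGraph (Fin n) → ℝ}
    (h : ∀ G, f G ≤ g G) : ex q f ≤ ex q g := by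
  unfold ex
  apply sum_le_sum
  intro G _
  exact mul_le_mul_of_nonneg_right (h G) (wt_nonneg q hq G)

theorem ex_add (f g : SimpleGraph (Fin n) → ℝ) :
    ex q (fun G => f G + g G) = ex q f + ex q g := by
  unfold ex
  rw [← sum_add_distrib]
  apply sum_congr rfl
  intro G _
  ring

theorem ex_mul (c : ℝ) (f : SimpleGraph (Fin n) → ℝ) :
    ex q (fun G => c * f G) = c * ex q f := by
  unfold ex
  rw [mul_sum]
  apply sum_congr rfl
  intro G _
  ring

theorem ex_sum {ι : Type} (s : Finset ι) (f : ι → SimpleGraph (Fin n) → ℝ) :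
    ex q (fun G => ∑ i ∈ s, f i G) = ∑ i ∈ s, ex q (f i) := by
  unfold ex
  rw [sum_comm]
  apply sum_congr rfl
  intro G _
  rw [sum_mul]

theorem pb_mono (hq : ∀ e, 0 ≤ q e ∧ q e ≤ 1) {P Q : SimpleGraph (Fin n) → Prop}
    (h : ∀ G, P G → Q G) : pb q P ≤ pb q Q := by
  classical
  rw [pb_eq, pb_eq]
  apply ex_mono q hq
  intro G
  by_cases h1 : P G
  · simp [h1, h G h1]
  · simp only [h1, if_false]
    split_ifs <;> norm_num

theorem pb_or_le (hq : ∀ e, 0 ≤ q e ∧ q e ≤ 1) (P Q : SimpleGraph (Fin n) → Prop) :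
    pb q (fun G => P G ∨ Q G) ≤ pb q P + pb q Q := by
  classical
  rw [pb_eq, pb_eq, pb_eq, ← ex_add]
  apply ex_mono q hq
  intro G
  by_cases h1 : P G <;> by_cases h2 : Q G <;> simp [h1, h2]

theorem pb_exists_le (hq : ∀ e, 0 ≤ q e ∧ q e ≤ 1) {ι : Type} (s : Finset ι)
    (P : ι → SimpleGraph (Fin n) → Prop) :
    pb q (fun G => ∃ i ∈ s, P i G) ≤ ∑ i ∈ s, pb q (P i) := by
  classical
  simp_rw [pb_eq]
  rw [← ex_sum]
  apply ex_mono q hq
  intro G
  by_cases h : ∃ i ∈ s, P i G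
  · rw [if_pos h]
    obtain ⟨i, hi, hP⟩ := h
    calc (1 : ℝ) = if P i G then (1 : ℝ) else 0 := by rw [if_pos hP]
      _ ≤ ∑ i ∈ s, if P i G then (1 : ℝ) else 0 :=
        Finset.single_le_sum (f := fun i => if P i G then (1 : ℝ) else 0)
          (fun j _ => by split_ifs <;> norm_num) hi
  · rw [if_neg h]
    apply Finset.sum_nonneg
    intro j _
    split_ifs <;> norm_num

theorem pb_not (P : SimpleGraph (Fin n) → Prop) :
    pb q P = 1 - pb q (fun G => ¬ P G) := by
  classical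
  have e2 : pb q (fun G => ¬ P G) = ex q (fun G => 1 - if P G then (1 : ℝ) else 0) := by
    rw [pb_eq]
    congr 1
    funext G
    by_cases h : P G <;> simp [h]
  have h2 := ex_add q (fun G => if P G then (1 : ℝ) else 0) (fun G => 1 - if P G then (1 : ℝ) else 0)
  have h1 : (fun G => (if P G then (1 : ℝ) else 0) + (1 - if P G then (1 : ℝ) else 0)) =
      fun _ => 1 := by
    funext G
    ring
  rw [h1, ex_one] at h2
  rw [e2, pb_eq]
  linarith

/-- Markov's inequality -/
theorem markov (hq : ∀ e, 0 ≤ q e ∧ q e ≤ 1) (f : SimpleGraph (Fin n) → ℝ) (hf : ∀ G, 0 ≤ f G)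
    (a : ℝ) (ha : 0 < a) : pb q (fun G => a ≤ f G) ≤ ex q f / a := by
  classical
  rw [pb_eq, le_div_iff₀ ha, mul_comm, ← ex_mul]
  apply ex_mono q hq
  intro G
  split_ifs with h
  · linarith
  · simpa using hf G

end

theorem prod_le_exp {n : ℕ} (q : Sym2 (Fin n) → ℝ) (hq : ∀ e, 0 ≤ q e ∧ q e ≤ 1) (s : Pr n → ℝ) :
    ∏ e : Pr n, (1 + q e.1 * (Real.exp (s e) - 1)) ≤
      Real.exp (∑ e : Pr n, q e.1 * (Real.exp (s e) - 1)) := by
  rw [Real.exp_sum]
  apply Finset.prod_le_prod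
  · intro e _
    have h1 := hq e.1
    have h2 := Real.exp_pos (s e)
    nlinarith
  · intro e _
    have := Real.add_one_le_exp (q e.1 * (Real.exp (s e) - 1))
    linarith

/-- sums over the pairs at a vertex -/
theorem sum_at {n : ℕ} (f : Sym2 (Fin n) → ℝ) (v : Fin n) :
    ∑ e : Pr n, (if v ∈ e.1 then f e.1 else 0) = ∑ w ∈ univ.erase v, f s(v, w) := by
  classical
  rw [← Finset.sum_filter]
  symm
  refine Finset.sum_bij (fun w hw => ⟨s(v, w), by
    simpa using (Finset.mem_erase.1 hw).1.symm⟩) ?_ ?_ ?_ ?_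
  · intro w hw
    simp
  · intro w hw w' hw' h
    exact Sym2.congr_right.1 (congrArg Subtype.val h)
  · rintro ⟨e, he⟩ hve
    rw [mem_filter] at hve
    obtain ⟨w, rfl⟩ := Sym2.mem_iff_exists.1 hve.2
    refine ⟨w, ?_, rfl⟩
    rw [mem_erase]
    refine ⟨?_, mem_univ _⟩
    rintro rfl
    exact he (by simp)
  · intro w hw
    rfl

theorem dg_eq_sum {n : ℕ} (G : SimpleGraph (Fin n)) (v : Fin n)
    [∀ (e : Pr n), Decidable (e.1 ∈ G.edgeSet)] :
    (dg G v : ℝ) = ∑ e : Pr n, (if e.1 ∈ G.edgeSet then (if v ∈ e.1 then 1 else 0) else 0) := by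
  classical
  refine Eq.trans ?_ ((sum_at (fun e => if e ∈ G.edgeSet then (1 : ℝ) else 0) v).symm.trans ?_)
  · unfold dg nb
    rw [Finset.sum_boole]
    congr 2
    ext w
    simp only [mem_filter, mem_univ, true_and, mem_erase, SimpleGraph.mem_edgeSet]
    constructor
    · intro h
      exact ⟨⟨h.ne', trivial⟩, h⟩
    · intro h
      exact h.2
  · apply sum_congr rfl
    intro e _
    by_cases h1 : e.1 ∈ G.edgeSet <;> by_cases h2 : v ∈ e.1 <;> simp [h1, h2]

/-- the expected degree -/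
noncomputable def mu {n : ℕ} (q : Sym2 (Fin n) → ℝ) (v : Fin n) : ℝ :=
  ∑ w ∈ univ.erase v, q s(v, w)

/-- exponential moment of a degree -/
theorem mgf_dg {n : ℕ} (q : Sym2 (Fin n) → ℝ) (hq : ∀ e, 0 ≤ q e ∧ q e ≤ 1) (v : Fin n) (lam : ℝ) :
    ex q (fun G => Real.exp (lam * dg G v)) ≤ Real.exp (mu q v * (Real.exp lam - 1)) := by
  classical
  have h1 : (fun G : SimpleGraph (Fin n) => Real.exp (lam * dg G v)) =
      (fun G => Real.exp (∑ e : Pr n, if e.1 ∈ G.edgeSet then (if v ∈ e.1 then lam else 0)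
        else 0)) := by
    funext G
    congr 1
    rw [dg_eq_sum, mul_sum]
    apply sum_congr rfl
    intro e _
    split_ifs <;> simp
  rw [h1, mgf q (fun e => if v ∈ e.1 then lam else 0)]
  refine (prod_le_exp q hq _).trans (le_of_eq ?_)
  congr 1
  unfold mu
  rw [← sum_at, sum_mul]
  apply sum_congr rfl
  intro e _
  split_ifs <;> simp

end Pool.Agent.W2helper87.SR
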