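import Pool.Agent.W2helper87.SR.Rg2

/-!
# Random graphs with independent edges: a lower bound for the maximum degree
-/

set_option autoImplicit false

namespace Pool.Agent.W2helper87.SR

open Finset Pool.Agent.H162R2.Sparse Pool.Agent.H162R2.AG

section
variable {n : ℕ} (q : Sym2 (Fin n) → ℝ)

/-- the normalisation of the exponential moment of the degree -/
noncomputable def EE (lam : ℝ) (v : Fin n) : ℝ :=
  ∏ e : Pr n, (1 + q e.1 * (Real.exp (if v ∈ e.1 then lam else 0) - 1))

theorem factor_pos (hq : ∀ e, 0 ≤ q e ∧ q e ≤ 1) (e : Sym2 (Fin n)) (x : ℝ) :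
    0 < 1 + q e * (Real.exp x - 1) := by
  have h1 := hq e
  have h2 := Real.exp_pos x
  rcases eq_or_lt_of_le h1.1 with h | h
  · rw [← h]
    norm_num
  · nlinarith

theorem EE_pos (hq : ∀ e, 0 ≤ q e ∧ q e ≤ 1) (lam : ℝ) (v : Fin n) : 0 < EE q lam v :=
  Finset.prod_pos fun e _ => factor_pos q hq e.1 _

theorem ex_exp_dg (lam : ℝ) (v : Fin n) :
    ex q (fun G => Real.exp (lam * dg G v)) = EE q lam v := by
  classical
  have h1 : (fun G : SimpleGraph (Fin n) => Real.exp (lam * dg G v)) =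
      (fun G => Real.exp (∑ e : Pr n, if e.1 ∈ G.edgeSet then (if v ∈ e.1 then lam else 0)
        else 0)) := by
    funext G
    congr 1
    rw [dg_eq_sum, mul_sum]
    apply sum_congr rfl
    intro e _
    split_ifs <;> simp
  rw [h1, mgf q (fun e => if v ∈ e.1 then lam else 0)]
  rfl

theorem exp_sub_one_bounds {x : ℝ} (h0 : 0 ≤ x) (h1 : x ≤ 1) :
    x + x ^ 2 / 2 ≤ Real.exp x - 1 ∧ Real.exp x - 1 ≤ 2 * x := by
  constructor
  · have := Real.quadratic_le_exp_of_nonneg h0
    linarith
  · have := exp_le_quad (x := x) (by rw [abs_of_nonneg h0]; exact h1)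
    nlinarith

/-- joint exponential moments -/
theorem ex_pair (hq : ∀ e, 0 ≤ q e ∧ q e ≤ 1) (lam : ℝ) (h0 : 0 ≤ lam) (h1 : lam ≤ 1)
    (v w : Fin n) :
    ex q (fun G => (Real.exp (lam * dg G v) / EE q lam v) *
      (Real.exp (lam * dg G w) / EE q lam w)) ≤
      Real.exp (4 * lam ^ 2 * ∑ e : Pr n, (if v ∈ e.1 then (if w ∈ e.1 then q e.1 else 0) else 0)) := by
  classical
  have hv := EE_pos q hq lam v
  have hw := EE_pos q hq lam w
  have e1 : (fun G : SimpleGraph (Fin n) => (Real.exp (lam * dg G v) / EE q lam v) *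
      (Real.exp (lam * dg G w) / EE q lam w)) =
      (fun G => (1 / (EE q lam v * EE q lam w)) *
        Real.exp (∑ e : Pr n, if e.1 ∈ G.edgeSet then
          ((if v ∈ e.1 then lam else 0) + (if w ∈ e.1 then lam else 0)) else 0)) := by
    funext G
    have k1 : ∑ e : Pr n, (if e.1 ∈ G.edgeSet then
          ((if v ∈ e.1 then lam else 0) + (if w ∈ e.1 then lam else 0)) else 0) =
        lam * dg G v + lam * dg G w := by
      rw [dg_eq_sum, dg_eq_sum, mul_sum, mul_sum, ← sum_add_distrib]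
      apply sum_congr rfl
      intro e _
      split_ifs <;> simp
    rw [k1, Real.exp_add]
    field_simp
  rw [e1, ex_mul, mgf q (fun e => (if v ∈ e.1 then lam else 0) + (if w ∈ e.1 then lam else 0))]
  rw [one_div, inv_mul_le_iff₀ (by positivity)]
  unfold EE
  rw [← Finset.prod_mul_distrib, mul_sum, Real.exp_sum, ← Finset.prod_mul_distrib]
  apply Finset.prod_le_prod
  · intro e _
    exact (factor_pos q hq e.1 _).le
  · intro e _
    have hq1 := hq e.1
    by_cases h2 : v ∈ e.1
    · by_cases h3 : w ∈ e.1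
      · simp only [h2, h3, if_true]
        obtain ⟨b1, b2⟩ := exp_sub_one_bounds h0 h1
        set x := Real.exp lam - 1 with hx
        have hx0 : 0 ≤ x := by nlinarith
        have e2 : Real.exp (lam + lam) - 1 = 2 * x + x ^ 2 := by
          rw [Real.exp_add, hx]
          ring
        rw [e2]
        set z := q e.1 with hz
        have h4 : 1 + z * (2 * x + x ^ 2) = (1 + z * x) * (1 + z * x) + z * (1 - z) * x ^ 2 := by
          ring
        have h5 : x ^ 2 ≤ 4 * lam ^ 2 := by nlinarith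
        have h6 : z * (1 - z) * x ^ 2 ≤ z * (4 * lam ^ 2) := by
          have : z * (1 - z) ≤ z := by nlinarith
          calc z * (1 - z) * x ^ 2 ≤ z * x ^ 2 := by gcongr
            _ ≤ z * (4 * lam ^ 2) := by gcongr; exact hq1.1
        have h7 := Real.add_one_le_exp (4 * lam ^ 2 * z)
        have h8 : 1 ≤ (1 + z * x) * (1 + z * x) := by
          have : 0 ≤ z * x := mul_nonneg hq1.1 hx0
          nlinarith
        calc 1 + z * (2 * x + x ^ 2)
            ≤ (1 + z * x) * (1 + z * x) + 4 * lam ^ 2 * z := by linarith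
          _ ≤ (1 + z * x) * (1 + z * x) * (4 * lam ^ 2 * z + 1) := by
              have : 0 ≤ 4 * lam ^ 2 * z := by
                have := hq1.1
                positivity
              nlinarith
          _ ≤ (1 + z * x) * (1 + z * x) * Real.exp (4 * lam ^ 2 * z) := by gcongr
      · simp [h2, h3]
    · simp [h2]

theorem sum_pair_self (v : Fin n) :
    ∑ e : Pr n, (if v ∈ e.1 then (if v ∈ e.1 then q e.1 else 0) else 0) = mu q v := by
  unfold mu
  rw [← sum_at]
  apply sum_congr rfl
  intro e _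
  split_ifs <;> rfl

theorem sum_pair_ne (v w : Fin n) (hvw : v ≠ w) :
    ∑ e : Pr n, (if v ∈ e.1 then (if w ∈ e.1 then q e.1 else 0) else 0) = q s(v, w) := by
  rw [sum_at (fun e => if w ∈ e then q e else 0)]
  rw [Finset.sum_eq_single w]
  · simp
  · intro u _ huw
    rw [if_neg]
    rw [Sym2.mem_iff]
    rintro (h | h)
    · exact hvw h.symm
    · exact huw h.symm
  · intro h
    exact absurd (mem_erase.2 ⟨hvw.symm, mem_univ _⟩) h

theorem EE_lower (hq : ∀ e, 0 ≤ q e ∧ q e ≤ 1) (qm : ℝ) (hqm : ∀ e, q e ≤ qm) (hqm2 : qm ≤ 1 / 12)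
    (lam : ℝ) (h0 : 0 ≤ lam) (h1 : lam ≤ 1) (v : Fin n) :
    Real.exp (mu q v * (lam + lam ^ 2 / 4)) ≤ EE q lam v := by
  classical
  unfold EE mu
  rw [← sum_at, sum_mul, Real.exp_sum]
  apply Finset.prod_le_prod
  · intro e _
    exact (Real.exp_pos _).le
  · intro e _
    by_cases h2 : v ∈ e.1
    · simp only [h2, if_true]
      obtain ⟨b1, b2⟩ := exp_sub_one_bounds h0 h1
      set x := Real.exp lam - 1 with hx
      have hx0 : 0 ≤ x := by nlinarith
      set z := q e.1 with hz
      have hz0 : 0 ≤ z := (hq e.1).1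
      have hz1 : z ≤ 1 / 12 := (hqm e.1).trans hqm2
      have h3 : 0 < 1 + z * x := by
        have : 0 ≤ z * x := mul_nonneg hz0 hx0
        linarith
      rw [← Real.le_log_iff_exp_le h3]
      have h4 := Real.one_sub_inv_le_log_of_pos h3
      refine le_trans ?_ h4
      have h5 : 1 - (1 + z * x)⁻¹ = z * x / (1 + z * x) := by
        field_simp
        ring
      rw [h5, le_div_iff₀ h3]
      -- z (l + l²/4) (1 + z x) ≤ z x
      have h6 : (lam + lam ^ 2 / 4) * (1 + z * x) ≤ x := by
        have h7 : z * x ≤ 1 / 12 * (2 * lam) := by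
          calc z * x ≤ 1 / 12 * x := by gcongr
            _ ≤ 1 / 12 * (2 * lam) := by gcongr
        have h8 : (lam + lam ^ 2 / 4) * (1 + z * x) ≤ (lam + lam ^ 2 / 4) * (1 + lam / 6) := by
          have : 0 ≤ lam + lam ^ 2 / 4 := by positivity
          gcongr
          linarith
        nlinarith [mul_nonneg h0 h0, mul_nonneg (mul_nonneg h0 h0) (sub_nonneg.2 h1)]
      calc z * (lam + lam ^ 2 / 4) * (1 + z * x) = z * ((lam + lam ^ 2 / 4) * (1 + z * x)) := by ring
        _ ≤ z * x := by gcongr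
    · simp [h2]

/-- one of many vertices has a degree above its expectation -/
theorem some_large (hq : ∀ e, 0 ≤ q e ∧ q e ≤ 1) (qm : ℝ) (hqm : ∀ e, q e ≤ qm)
    (hqm2 : qm ≤ 1 / 12) (S : Finset (Fin n)) (hS : 0 < S.card) (μ lam t : ℝ) (h0 : 0 ≤ lam)
    (h1 : lam ≤ 1) (hμ1 : ∀ v ∈ S, mu q v ≤ μ) (hμ2 : ∀ v ∈ S, μ / 2 ≤ mu q v)
    (ht : lam * t + Real.log 2 ≤ μ * lam ^ 2 / 8) :
    pb q (fun G => ∀ v ∈ S, (dg G v : ℝ) < mu q v + t) ≤
      4 * Real.exp (4 * lam ^ 2 * μ) / S.card + 4 * (Real.exp (4 * lam ^ 2 * qm) - 1) := by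
  classical
  set a : ℝ := (S.card : ℝ) with ha
  have ha0 : 0 < a := by
    rw [ha]
    exact_mod_cast hS
  set Z : Fin n → SimpleGraph (Fin n) → ℝ := fun v G => Real.exp (lam * dg G v) / EE q lam v with hZ
  have hZ0 : ∀ v G, 0 ≤ Z v G := fun v G => (div_pos (Real.exp_pos _) (EE_pos q hq lam v)).le
  have hZ1 : ∀ v, ex q (Z v) = 1 := by
    intro v
    have e1 : (Z v) = fun G => (1 / EE q lam v) * Real.exp (lam * dg G v) := by
      funext G
      simp only [hZ]
      ring
    rw [e1, ex_mul, ex_exp_dg]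
    have := EE_pos q hq lam v
    field_simp
  -- second moment
  have hsq : ex q (fun G => (∑ v ∈ S, Z v G - a) ^ 2) ≤
      a * Real.exp (4 * lam ^ 2 * μ) + a ^ 2 * (Real.exp (4 * lam ^ 2 * qm) - 1) := by
    have e1 : (fun G => (∑ v ∈ S, Z v G - a) ^ 2) =
        (fun G => ∑ v ∈ S, ∑ w ∈ S, Z v G * Z w G + ((-2 * a) * ∑ v ∈ S, Z v G + a ^ 2 * 1)) := by
      funext G
      have : (∑ v ∈ S, Z v G) * (∑ w ∈ S, Z w G) = ∑ v ∈ S, ∑ w ∈ S, Z v G * Z w G :=
        Finset.sum_mul_sum _ _ _ _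
      rw [← this]
      ring
    have e2 : ex q (fun G => ∑ v ∈ S, ∑ w ∈ S, Z v G * Z w G) ≤
        a * Real.exp (4 * lam ^ 2 * μ) + a ^ 2 * Real.exp (4 * lam ^ 2 * qm) := by
      rw [ex_sum]
      have e3 : ∀ v ∈ S, ex q (fun G => ∑ w ∈ S, Z v G * Z w G) ≤
          Real.exp (4 * lam ^ 2 * μ) + a * Real.exp (4 * lam ^ 2 * qm) := by
        intro v hv
        rw [ex_sum]
        have e4 : ∀ w ∈ S, ex q (fun G => Z v G * Z w G) ≤
            (if w = v then Real.exp (4 * lam ^ 2 * μ) else 0) + Real.exp (4 * lam ^ 2 * qm) := by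
          intro w hw
          refine (ex_pair q hq lam h0 h1 v w).trans ?_
          by_cases hvw : v = w
          · subst hvw
            rw [sum_pair_self, if_pos rfl]
            have e5 : Real.exp (4 * lam ^ 2 * mu q v) ≤ Real.exp (4 * lam ^ 2 * μ) := by
              apply Real.exp_le_exp.2
              have := hμ1 v hv
              gcongr
            have := Real.exp_pos (4 * lam ^ 2 * qm)
            linarith
          · rw [sum_pair_ne q v w hvw, if_neg (fun h => hvw h.symm), zero_add]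
            apply Real.exp_le_exp.2
            have := hqm s(v, w)
            gcongr
        refine (sum_le_sum e4).trans ?_
        rw [sum_add_distrib, Finset.sum_ite_eq', if_pos hv, sum_const, nsmul_eq_mul]
      refine (sum_le_sum e3).trans ?_
      rw [sum_const, nsmul_eq_mul]
      apply le_of_eq
      ring
    have e6 : ex q (fun G => ∑ v ∈ S, Z v G) = a := by
      rw [ex_sum, sum_congr rfl (fun v _ => hZ1 v), sum_const, nsmul_eq_mul, mul_one]
    rw [e1, ex_add, ex_add, ex_mul, ex_mul, e6, ex_one]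
    linarith
  -- Chebyshev
  have h3 : pb q (fun G => ∀ v ∈ S, (dg G v : ℝ) < mu q v + t) ≤
      pb q (fun G => a ^ 2 / 4 ≤ (∑ v ∈ S, Z v G - a) ^ 2) := by
    apply pb_mono q hq
    intro G hG
    have e1 : ∀ v ∈ S, Z v G ≤ 1 / 2 := by
      intro v hv
      simp only [hZ]
      rw [div_le_iff₀ (EE_pos q hq lam v)]
      have e2 := EE_lower q hq qm hqm hqm2 lam h0 h1 v
      have e3 : Real.exp (lam * dg G v) ≤ 1 / 2 * Real.exp (mu q v * (lam + lam ^ 2 / 4)) := by
        have e4 : (1 : ℝ) / 2 = Real.exp (-Real.log 2) := by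
          rw [Real.exp_neg, Real.exp_log (by norm_num)]
          norm_num
        rw [e4, ← Real.exp_add]
        apply Real.exp_le_exp.2
        have e5 : lam * (dg G v : ℝ) ≤ lam * (mu q v + t) :=
          mul_le_mul_of_nonneg_left (hG v hv).le h0
        have e6 : μ / 2 * (lam ^ 2 / 4) ≤ mu q v * (lam ^ 2 / 4) := by
          have := hμ2 v hv
          gcongr
        nlinarith
      refine e3.trans ?_
      gcongr
    have e7 : ∑ v ∈ S, Z v G ≤ a / 2 := by
      refine (sum_le_sum e1).trans (le_of_eq ?_)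
      rw [sum_const, nsmul_eq_mul]
      ring
    nlinarith
  refine h3.trans ((markov q hq (fun G => (∑ v ∈ S, Z v G - a) ^ 2) (fun G => sq_nonneg _)
    (a ^ 2 / 4) (by positivity)).trans ?_)
  rw [div_le_iff₀ (by positivity)]
  refine hsq.trans (le_of_eq ?_)
  field_simp

end

end Pool.Agent.W2helper87.SR
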