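import Pool.Agent.W2helper87.SR.Tail
import Pool.Agent.W2helper87.SR.Clos

/-!
# Random splittings of the vertices and of the colours with few exceptional vertices
-/

set_option autoImplicit false

namespace Pool.Agent.W2helper87.SR

open Finset Pool.Agent.H162R2.Sparse Pool.Agent.H162R2.AG

/-- the patterns which agree with `b` before `j` and differ at `j` -/
def blk {J : ℕ} (b : Fin J → Bool) (j : Fin J) : Finset (Fin J → Bool) :=
  univ.filter (fun x => (∀ i, i < j → x i = b i) ∧ x j ≠ b j)

theorem card_blk {J : ℕ} (b : Fin J → Bool) (j : Fin J) :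
    ((blk b j).card : ℝ) / 2 ^ J = 1 / 2 ^ ((j : ℕ) + 1) := by
  classical
  have h1 : blk b j = Fintype.piFinset (fun i : Fin J =>
      if i < j then ({b i} : Finset Bool) else if i = j then {!(b i)} else univ) := by
    ext x
    simp only [blk, mem_filter, mem_univ, true_and, Fintype.mem_piFinset]
    constructor
    · rintro ⟨h1, h2⟩ i
      by_cases hi : i < j
      · simp [hi, h1 i hi]
      · by_cases hij : i = j
        · subst hij
          simp only [lt_irrefl, if_false, if_true, mem_singleton]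
          cases hx : x i <;> cases hb : b i <;> simp_all
        · simp [hi, hij]
    · intro h
      constructor
      · intro i hi
        have := h i
        simpa [hi] using this
      · have := h j
        simp only [lt_irrefl, if_false, if_true, mem_singleton] at this
        rw [this]
        cases b j <;> simp
  have h2 : (blk b j).card = ∏ i : Fin J, (if i ≤ j then 1 else 2) := by
    rw [h1, Fintype.card_piFinset]
    apply prod_congr rfl
    intro i _
    by_cases hi : i < j
    · simp [hi, hi.le]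
    · by_cases hij : i = j
      · simp [hij]
      · have : ¬ i ≤ j := by
          intro h
          exact hi (lt_of_le_of_ne h hij)
        simp [hi, hij, this]
  have h3 : (blk b j).card * 2 ^ ((j : ℕ) + 1) = 2 ^ J := by
    have h4 : ∏ i : Fin J, (if i ≤ j then 2 else 1) = 2 ^ ((j : ℕ) + 1) := by
      rw [Finset.prod_ite, Finset.prod_const, Finset.prod_const_one, mul_one]
      congr 1
      have : (univ.filter (fun i : Fin J => i ≤ j)) = Finset.Iic j := by
        ext i
        simp
      rw [this, Fin.card_Iic]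
    rw [h2, ← h4, ← Finset.prod_mul_distrib]
    rw [Finset.prod_congr rfl (g := fun _ => 2)]
    · simp
    · intro i _
      split_ifs <;> rfl
  have h5 : ((blk b j).card : ℝ) * 2 ^ ((j : ℕ) + 1) = 2 ^ J := by exact_mod_cast h3
  rw [div_eq_div_iff (by positivity) (by positivity)]
  linarith

/-- splitting the vertices -/
theorem exists_sigma {n : ℕ} (J : ℕ) (G : SimpleGraph (Fin n)) (D : ℕ) (hD : 0 < D)
    (hdeg : ∀ v, dg G v ≤ D) (η : ℝ) (h0 : 0 ≤ η) (h1 : η ≤ D / 2) :
    ∃ σ : Fin n → (Fin J → Bool), ∃ T : Finset (Fin n),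
      (T.card : ℝ) ≤ n * 2 ^ (2 ^ J) * Real.exp (-(η ^ 2) / D) ∧
      ∀ v ∉ T, ∀ B : Finset (Fin J → Bool),
        (((nb G v).filter (fun w => σ w ∈ B)).card : ℝ) ≤ dg G v * ((B.card : ℝ) / 2 ^ J) + η := by
  classical
  have hκ : 0 < Fintype.card (Fin J → Bool) := Fintype.card_pos
  have hcard : (Fintype.card (Fin J → Bool) : ℝ) = 2 ^ J := by simp
  let bad : Fin n × Finset (Fin J → Bool) → (Fin n → (Fin J → Bool)) → Prop := fun i σ =>
    ((nb G i.1).card : ℝ) * ((i.2.card : ℝ) / Fintype.card (Fin J → Bool)) + η ≤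
      (((nb G i.1).filter (fun w => σ w ∈ i.2)).card : ℝ)
  obtain ⟨σ, hσ⟩ := avg (Ω := Fin n → (Fin J → Bool)) (univ : Finset (Fin n × Finset (Fin J → Bool)))
    bad (Real.exp (-(η ^ 2) / D)) (by
      intro i _
      exact tail (nb G i.1) i.2 hκ D η (by exact_mod_cast hD) (by exact_mod_cast hdeg i.1) h0 h1)
  refine ⟨σ, (univ.filter (fun i => bad i σ)).image Prod.fst, ?_, ?_⟩
  · have h2 : (((univ.filter (fun i => bad i σ)).image Prod.fst).card : ℝ) ≤
        ((univ.filter (fun i => bad i σ)).card : ℝ) := by exact_mod_cast card_image_le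
    refine h2.trans (hσ.trans (le_of_eq ?_))
    rw [card_univ, Fintype.card_prod, Fintype.card_finset, Fintype.card_fin]
    push_cast
    simp
    ring
  · intro v hv B
    by_contra hcon
    push Not at hcon
    apply hv
    rw [mem_image]
    refine ⟨(v, B), ?_, rfl⟩
    rw [mem_filter]
    refine ⟨mem_univ _, ?_⟩
    simp only [bad]
    rw [hcard]
    exact hcon.le

theorem card_pr_le {n : ℕ} (G : SimpleGraph (Fin n)) (D : ℕ) (hdeg : ∀ v, dg G v ≤ D) :
    (pr G).card ≤ n * D := by
  classical
  have h1 : pr G = ES G univ := by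
    ext e
    rw [mem_ES, mem_pr]
    simp
  rw [h1, card_ES]
  calc ∑ u ∈ (univ : Finset (Fin n)), dg G u ≤ ∑ _u ∈ (univ : Finset (Fin n)), D :=
        sum_le_sum fun u _ => hdeg u
    _ = n * D := by simp

/-- splitting the colours -/
theorem exists_psi {n : ℕ} (G : SimpleGraph (Fin n)) (D : ℕ) (hD : 0 < D)
    (hdeg : ∀ v, dg G v ≤ D) (η : ℝ) (h0 : 0 ≤ η) (h1 : η ≤ D / 2)
    (L : Fin n → Fin n → Finset ℕ) (hL : ∀ v w, G.Adj v w → (L v w).card = D)
    (k : ℕ) (B : Fin k → Finset (Fin D)) :
    ∃ ψ : ℕ → Fin D, ∃ T : Finset (Fin n),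
      (T.card : ℝ) ≤ n * D * k * Real.exp (-(η ^ 2) / D) ∧
      ∀ v ∉ T, ∀ w, G.Adj v w → ∀ j,
        ((B j).card : ℝ) - η ≤ (((L v w).filter (fun c => ψ c ∈ B j)).card : ℝ) := by
  classical
  have : NeZero D := ⟨hD.ne'⟩
  let M : ℕ := (univ.sup fun v : Fin n => univ.sup fun w : Fin n => (L v w).sup id) + 1
  have hM : ∀ v w, ∀ c ∈ L v w, c < M := by
    intro v w c hc
    have e1 : c ≤ (L v w).sup id := Finset.le_sup (f := id) hc
    have e2 : (L v w).sup id ≤ univ.sup fun w : Fin n => (L v w).sup id :=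
      Finset.le_sup (f := fun w : Fin n => (L v w).sup id) (mem_univ w)
    have e3 : (univ.sup fun w : Fin n => (L v w).sup id) ≤
        univ.sup fun v : Fin n => univ.sup fun w : Fin n => (L v w).sup id :=
      Finset.le_sup (f := fun v : Fin n => univ.sup fun w : Fin n => (L v w).sup id) (mem_univ v)
    simp only [M]
    omega
  let S : Fin n → Fin n → Finset (Fin M) := fun v w => univ.filter (fun i => (i : ℕ) ∈ L v w)
  have hS : ∀ v w, ((S v w).image (fun i : Fin M => (i : ℕ))) = L v w := by
    intro v w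
    ext c
    rw [mem_image]
    constructor
    · rintro ⟨i, hi, rfl⟩
      exact (mem_filter.1 hi).2
    · intro hc
      exact ⟨⟨c, hM v w c hc⟩, mem_filter.2 ⟨mem_univ _, hc⟩, rfl⟩
  have hSc : ∀ v w, (S v w).card = (L v w).card := by
    intro v w
    rw [← hS v w, card_image_of_injective _ Fin.val_injective]
  have hcardD : (Fintype.card (Fin D) : ℝ) = D := by simp
  let bad : (Fin n × Fin n) × Fin k → (Fin M → Fin D) → Prop := fun i ψ =>
    ((S i.1.1 i.1.2).card : ℝ) * ((((B i.2)ᶜ).card : ℝ) / Fintype.card (Fin D)) + η ≤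
      (((S i.1.1 i.1.2).filter (fun c => ψ c ∈ (B i.2)ᶜ)).card : ℝ)
  obtain ⟨ψ, hψ⟩ := avg (Ω := Fin M → Fin D) ((pr G) ×ˢ (univ : Finset (Fin k)))
    bad (Real.exp (-(η ^ 2) / D)) (by
      intro i hi
      rw [mem_product, mem_pr] at hi
      exact tail (S i.1.1 i.1.2) (B i.2)ᶜ (by simpa using hD) D η (by exact_mod_cast hD)
        (by rw [hSc, hL _ _ hi.1]) h0 h1)
  have hDr : (0 : ℝ) < D := by exact_mod_cast hD
  refine ⟨fun c => if h : c < M then ψ ⟨c, h⟩ else 0,
    ((((pr G) ×ˢ (univ : Finset (Fin k))).filter (fun i => bad i ψ)).image (fun i => i.1.1)),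
    ?_, ?_⟩
  · have h2 : ((((((pr G) ×ˢ (univ : Finset (Fin k))).filter (fun i => bad i ψ)).image
        (fun i => i.1.1))).card : ℝ) ≤
        ((((pr G) ×ˢ (univ : Finset (Fin k))).filter (fun i => bad i ψ)).card : ℝ) := by
      exact_mod_cast card_image_le
    refine h2.trans (hψ.trans ?_)
    rw [card_product, card_univ, Fintype.card_fin]
    have h3 : ((pr G).card : ℝ) ≤ n * D := by exact_mod_cast card_pr_le G D hdeg
    push_cast
    calc Real.exp (-(η ^ 2) / D) * (((pr G).card : ℝ) * k)
        ≤ Real.exp (-(η ^ 2) / D) * ((n * D) * k) := by gcongr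
      _ = n * D * k * Real.exp (-(η ^ 2) / D) := by ring
  · intro v hv w hvw j
    by_contra hcon
    push Not at hcon
    apply hv
    rw [mem_image]
    refine ⟨((v, w), j), ?_, rfl⟩
    rw [mem_filter, mem_product, mem_pr]
    refine ⟨⟨hvw, mem_univ _⟩, ?_⟩
    simp only [bad]
    rw [hSc, hL _ _ hvw, hcardD, card_compl, Fintype.card_fin]
    have e1 : (((L v w).filter (fun c => (if h : c < M then ψ ⟨c, h⟩ else 0) ∈ B j))).card =
        ((S v w).filter (fun c => ψ c ∈ B j)).card := by
      rw [← card_image_of_injective ((S v w).filter (fun c => ψ c ∈ B j)) Fin.val_injective]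
      congr 1
      ext c
      rw [mem_filter, mem_image]
      constructor
      · rintro ⟨hc, hc2⟩
        have hcM := hM v w c hc
        rw [dif_pos hcM] at hc2
        exact ⟨⟨c, hcM⟩, mem_filter.2 ⟨mem_filter.2 ⟨mem_univ _, hc⟩, hc2⟩, rfl⟩
      · rintro ⟨i, hi, rfl⟩
        rw [mem_filter, mem_filter] at hi
        refine ⟨hi.1.2, ?_⟩
        rw [dif_pos i.isLt]
        exact hi.2
    have e2 : ((S v w).filter (fun c => ψ c ∈ (B j)ᶜ)).card +
        ((S v w).filter (fun c => ψ c ∈ B j)).card = D := by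
      have k1 : (S v w).card = D := by rw [hSc, hL _ _ hvw]
      have k2 := card_filter_add_card_filter_not (s := S v w) (fun c => ψ c ∈ B j)
      have k3 : (S v w).filter (fun c => ψ c ∈ (B j)ᶜ) =
          (S v w).filter (fun c => ¬ ψ c ∈ B j) := by
        ext c
        simp
      rw [k3]
      omega
    have e3 : (((S v w).filter (fun c => ψ c ∈ (B j)ᶜ)).card : ℝ) +
        ((S v w).filter (fun c => ψ c ∈ B j)).card = D := by exact_mod_cast e2
    have e4 : ((B j).card : ℕ) ≤ D := by
      have := card_le_univ (B j)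
      simpa using this
    rw [Nat.cast_sub e4, mul_div_cancel₀ _ hDr.ne']
    have e5 : ((((L v w).filter (fun c => (if h : c < M then ψ ⟨c, h⟩ else 0) ∈ B j))).card : ℝ) =
        ((S v w).filter (fun c => ψ c ∈ B j)).card := by exact_mod_cast e1
    rw [e5] at hcon
    linarith

end Pool.Agent.W2helper87.SR
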