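import Pool.Agent.W2helper87.SR.Rg3
import Pool.Agent.W2helper87.SR.Asym2

/-!
# Typical properties of sparse random graphs with independent edges
-/

set_option autoImplicit false

namespace Pool.Agent.W2helper87.SR

open Finset Pool.Agent.H162R2.Sparse Pool.Agent.H162R2.AG

theorem ev_rpow (K a c : ℝ) (h : c < a) :
    ∀ᶠ n : ℕ in Filter.atTop, K * (n : ℝ) ^ (-a) ≤ (n : ℝ) ^ (-c) := by
  have h1 : ∀ᶠ n : ℕ in Filter.atTop, K ≤ (n : ℝ) ^ (a - c) :=
    ((tendsto_rpow_atTop (sub_pos.2 h)).comp tendsto_natCast_atTop_atTop).eventually_ge_atTop _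
  filter_upwards [h1, Filter.eventually_gt_atTop 0] with n hn hn0
  have hn0' : (0 : ℝ) < n := by exact_mod_cast hn0
  have e1 : (n : ℝ) ^ (-c) = (n : ℝ) ^ (a - c) * (n : ℝ) ^ (-a) := by
    rw [← Real.rpow_add hn0']
    congr 1
    ring
  rw [e1]
  gcongr

theorem mu_nonneg {n : ℕ} (q : Sym2 (Fin n) → ℝ) (hq : ∀ e, 0 ≤ q e) (v : Fin n) :
    0 ≤ mu q v := by
  unfold mu
  exact sum_nonneg fun w _ => hq _

theorem mu_le {n : ℕ} (q : Sym2 (Fin n) → ℝ) (qm : ℝ) (hqm0 : 0 ≤ qm) (hqm : ∀ e, q e ≤ qm)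
    (v : Fin n) : mu q v ≤ n * qm := by
  unfold mu
  calc ∑ w ∈ univ.erase v, q s(v, w) ≤ ∑ _w ∈ univ.erase v, qm := sum_le_sum fun w _ => hqm _
    _ = ((univ.erase v).card : ℝ) * qm := by rw [sum_const, nsmul_eq_mul]
    _ ≤ n * qm := by
        have h1 : ((univ.erase v).card : ℝ) ≤ n := by
          have := card_le_card (erase_subset v (univ : Finset (Fin n)))
          rw [card_univ, Fintype.card_fin] at this
          exact_mod_cast this
        gcongr

/-- few vertices of degree near the maximum degree, and local sparsity -/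
def Typ (κ ε A C : ℝ) {n : ℕ} (G : SimpleGraph (Fin n)) : Prop :=
  ∀ D : ℕ, (∀ v, dg G v ≤ D) → (∃ v, dg G v = D) →
    C * Real.log n ≤ D ∧ (D : ℝ) ≤ (n : ℝ) ^ κ ∧
    ((univ.filter (fun v => (D : ℝ) - ε * Real.sqrt (D * Real.log n) < dg G v)).card : ℝ) ≤
        (n : ℝ) ^ (1 - κ) ∧
    ∀ X : Finset (Fin n), (X.card : ℝ) ≤ 9 * (n : ℝ) ^ (1 - κ) → e2 G X ≤ A * X.card

set_option maxHeartbeats 1000000 in
theorem typical (κ C' : ℝ) (hκ0 : 0 < κ) (hκ4 : κ ≤ 1 / 768000000) :
    ∃ N : ℕ, ∀ n : ℕ, N ≤ n → ∀ q : Sym2 (Fin n) → ℝ,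
    (∀ e, 0 ≤ q e ∧ q e ≤ (n : ℝ) ^ (κ / 4 - 1)) →
    (∃ v, max 8 (2 * C') * Real.log n ≤ mu q v) →
    1 - (n : ℝ) ^ (-(κ / 4)) ≤ pb q (Typ κ (1 / 2000) (24 / κ) C') := by
  classical
  have hκ2 : κ ≤ 1 / 2 := by linarith
  set c : ℝ := κ / 4 with hc
  have hc0 : 0 < c := by positivity
  -- large `n`
  have v1 := ev_rpow 4 1 c (by linarith)
  have v2 := ev_rpow 64 (7 / 16) c (by linarith)
  have v3 := ev_rpow 8 (1 / 1048576 - κ) c (by linarith)
  have v4 := ev_rpow 4 (1 / 4194304) c (by linarith)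
  have v5 := ev_rpow 256 (1 - c) c (by linarith)
  have v6 : ∀ᶠ n : ℕ in Filter.atTop, 5 ≤ (n : ℝ) ^ (κ / 2) :=
    ((tendsto_rpow_atTop (by positivity : 0 < κ / 2)).comp
      tendsto_natCast_atTop_atTop).eventually_ge_atTop _
  have v7 : ∀ᶠ n : ℕ in Filter.atTop, 1024 ≤ Real.log n :=
    (Real.tendsto_log_atTop.comp tendsto_natCast_atTop_atTop).eventually_ge_atTop _
  obtain ⟨N, hN⟩ := Filter.eventually_atTop.1
    (v1.and (v2.and (v3.and (v4.and (v5.and (v6.and (v7.and
      (Filter.eventually_ge_atTop 144))))))))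
  refine ⟨N, fun n hn q hq' hmax => ?_⟩
  obtain ⟨w1, w2, w3, w4, w5, w6, w7, hn144⟩ := hN n hn
  have hnr : (144 : ℝ) ≤ n := by exact_mod_cast hn144
  have hn0 : (0 : ℝ) < n := by linarith
  have hn1 : (1 : ℝ) ≤ n := by linarith
  set l := Real.log n with hl
  have hl0 : 0 < l := by linarith
  set qm : ℝ := (n : ℝ) ^ (c - 1) with hqm
  have hqm0 : 0 < qm := by positivity
  have hc1 : c ≤ 1 / 2 := by linarith
  have hqm12 : qm ≤ 1 / 12 := by
    have e1 : qm ≤ (n : ℝ) ^ (-(1 / 2) : ℝ) := by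
      apply Real.rpow_le_rpow_of_exponent_le hn1
      linarith
    have e3 : (n : ℝ) ^ (-(1 / 2) : ℝ) = 1 / Real.sqrt n := by
      rw [Real.rpow_neg hn0.le, ← Real.sqrt_eq_rpow, one_div]
    have e4 : (12 : ℝ) ≤ Real.sqrt n := by
      apply Real.le_sqrt_of_sq_le
      linarith
    rw [e3] at e1
    refine e1.trans ?_
    gcongr
  have hq : ∀ e, 0 ≤ q e ∧ q e ≤ 1 := fun e => ⟨(hq' e).1, (hq' e).2.trans (by linarith)⟩
  have hqle : ∀ e, q e ≤ qm := fun e => (hq' e).2
  -- the largest expected degree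
  have hne : Nonempty (Fin n) := ⟨⟨0, by omega⟩⟩
  obtain ⟨u, hu⟩ := Finite.exists_max (fun v : Fin n => mu q v)
  set μ : ℝ := mu q u with hμ
  obtain ⟨v₀, hv₀⟩ := hmax
  have hμC : max 8 (2 * C') * l ≤ μ := hv₀.trans (hu v₀)
  have hμ8 : 8 * l ≤ μ := by
    have : 8 * l ≤ max 8 (2 * C') * l := by gcongr; exact le_max_left _ _
    linarith
  have hμC' : 2 * C' * l ≤ μ := by
    have : 2 * C' * l ≤ max 8 (2 * C') * l := by gcongr; exact le_max_right _ _
    linarith
  have hμ0 : 0 < μ := by linarith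
  have hμn : μ ≤ (n : ℝ) ^ c := by
    refine (mu_le q qm hqm0.le hqle u).trans (le_of_eq ?_)
    rw [hqm, show (n : ℝ) * (n : ℝ) ^ (c - 1) = (n : ℝ) ^ (1 : ℝ) * (n : ℝ) ^ (c - 1) by
      rw [Real.rpow_one], ← Real.rpow_add hn0]
    congr 1
    ring
  set S : ℝ := Real.sqrt (μ * l) with hS
  have hS0 : 0 ≤ S := Real.sqrt_nonneg _
  have hSS : S ^ 2 = μ * l := Real.sq_sqrt (by positivity)
  have hSpos : 0 < S := Real.sqrt_pos.2 (by positivity)
  have hSμ : S ≤ μ := by
    apply Real.sqrt_le_iff.2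
    refine ⟨hμ0.le, ?_⟩
    nlinarith
  set t : ℝ := S / 128 with ht
  have ht0 : 0 < t := by positivity
  -- the vertices of large expected degree
  set A : Finset (Fin n) := univ.filter (fun v => μ - t / 2 ≤ mu q v) with hA
  -- the bad events
  let E1 : SimpleGraph (Fin n) → Prop := fun G => ∃ v ∈ (univ : Finset (Fin n)),
    mu q v + μ ≤ dg G v
  let E2 : SimpleGraph (Fin n) → Prop := fun G =>
    if (n : ℝ) ^ (1 - κ) / 2 ≤ A.card then ∀ v ∈ A, (dg G v : ℝ) < mu q v + t
    else (dg G u : ℝ) ≤ mu q u - t / 8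
  let E3 : SimpleGraph (Fin n) → Prop := fun G => (n : ℝ) ^ (1 - κ) / 2 ≤
    ((univ.filter (fun v => mu q v + t / 4 ≤ dg G v)).card : ℝ)
  let E4 : SimpleGraph (Fin n) → Prop := fun G => ¬ ∀ X : Finset (Fin n),
    (X.card : ℝ) ≤ 9 * (n : ℝ) ^ (1 - κ) → e2 G X ≤ 24 / κ * X.card
  have hE1 : pb q E1 ≤ (n : ℝ) ^ (-c) / 4 := by
    have e1 : pb q E1 ≤ ∑ v ∈ (univ : Finset (Fin n)), Real.exp (-(μ ^ 2) / (4 * μ)) := by
      refine (pb_exists_le q hq univ (fun v G => mu q v + μ ≤ dg G v)).trans ?_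
      apply sum_le_sum
      intro v _
      exact dg_upper q hq v μ μ hμ0 (hu v) hμ0.le (by linarith)
    rw [sum_const, card_univ, Fintype.card_fin, nsmul_eq_mul] at e1
    have e3 : Real.exp (-(μ ^ 2) / (4 * μ)) ≤ (n : ℝ) ^ (-(2 : ℝ)) := by
      rw [← exp_log_rpow n (by omega)]
      apply Real.exp_le_exp.2
      have : -(μ ^ 2) / (4 * μ) = -(μ / 4) := by
        field_simp
      rw [this]
      change -(μ / 4) ≤ -(2 * l)
      linarith
    have e4 : (n : ℝ) * (n : ℝ) ^ (-(2 : ℝ)) = (n : ℝ) ^ (-(1 : ℝ)) := by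
      nth_rewrite 1 [← Real.rpow_one (n : ℝ)]
      rw [← Real.rpow_add hn0]
      norm_num
    have e5 : pb q E1 ≤ (n : ℝ) ^ (-(1 : ℝ)) := by
      rw [← e4]
      refine e1.trans ?_
      gcongr
    linarith
  have hE3 : pb q E3 ≤ (n : ℝ) ^ (-c) / 4 := by
    have e1 := markov q hq (fun G => ((univ.filter (fun v => mu q v + t / 4 ≤ dg G v)).card : ℝ))
      (fun G => Nat.cast_nonneg _) ((n : ℝ) ^ (1 - κ) / 2) (by positivity)
    have e3 : ex q (fun G => ((univ.filter (fun v => mu q v + t / 4 ≤ dg G v)).card : ℝ)) ≤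
        n * Real.exp (-((t / 4) ^ 2) / (4 * μ)) := by
      have k1 : (fun G => ((univ.filter (fun v => mu q v + t / 4 ≤ dg G v)).card : ℝ)) =
          (fun G => ∑ v : Fin n, if mu q v + t / 4 ≤ dg G v then (1 : ℝ) else 0) := by
        funext G
        rw [Finset.sum_boole]
      rw [k1, ex_sum]
      calc ∑ v : Fin n, ex q (fun G => if mu q v + t / 4 ≤ dg G v then (1 : ℝ) else 0)
          ≤ ∑ _v : Fin n, Real.exp (-((t / 4) ^ 2) / (4 * μ)) := by
            apply sum_le_sum
            intro v _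
            have k2 := dg_upper q hq v μ (t / 4) hμ0 (hu v) (by positivity) (by linarith)
            rw [pb_eq] at k2
            refine le_trans (le_of_eq ?_) k2
            congr 1
        _ = n * Real.exp (-((t / 4) ^ 2) / (4 * μ)) := by
            rw [sum_const, card_univ, Fintype.card_fin, nsmul_eq_mul]
    have e4 : Real.exp (-((t / 4) ^ 2) / (4 * μ)) = (n : ℝ) ^ (-(1 / 1048576 : ℝ)) := by
      rw [← exp_log_rpow n (by omega)]
      congr 1
      rw [ht, div_div, div_pow, hSS]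
      change _ = -(1 / 1048576 * l)
      field_simp
      norm_num
    rw [e4] at e3
    have e5 : pb q E3 ≤ (n * (n : ℝ) ^ (-(1 / 1048576 : ℝ))) / ((n : ℝ) ^ (1 - κ) / 2) := by
      refine e1.trans ?_
      gcongr
    have e6 : (n * (n : ℝ) ^ (-(1 / 1048576 : ℝ))) / ((n : ℝ) ^ (1 - κ) / 2) =
        2 * (n : ℝ) ^ (-(1 / 1048576 - κ)) := by
      rw [div_eq_iff (by positivity)]
      have : (n : ℝ) ^ (-(1 / 1048576 - κ)) * (n : ℝ) ^ (1 - κ) =
          n * (n : ℝ) ^ (-(1 / 1048576 : ℝ)) := by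
        nth_rewrite 3 [← Real.rpow_one (n : ℝ)]
        rw [← Real.rpow_add hn0, ← Real.rpow_add hn0]
        congr 1
        ring
      rw [← this]
      ring
    rw [e6] at e5
    linarith
  have hE4 : pb q E4 ≤ (n : ℝ) ^ (-c) / 4 := by
    have e1 := sparse_all q hq qm hqle (24 / κ) (κ / 8 * l) (9 * (n : ℝ) ^ (1 - κ)) (by positivity)
      (by omega) ?_ ?_
    · have e3 : (1 : ℝ) / n = (n : ℝ) ^ (-(1 : ℝ)) := by
        rw [Real.rpow_neg_one, one_div]
      rw [e3] at e1
      have e4 : pb q E4 ≤ (n : ℝ) ^ (-(1 : ℝ)) := e1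
      linarith
    · have e3 : Real.exp (2 * (κ / 8 * l)) = (n : ℝ) ^ (κ / 4) := by
        rw [Real.rpow_def_of_pos hn0]
        congr 1
        change _ = l * (κ / 4)
        ring
      rw [e3]
      have e4 : qm * (n : ℝ) ^ (κ / 4) * (n : ℝ) ^ (1 - κ) = (n : ℝ) ^ (-(κ / 2)) := by
        rw [hqm, ← Real.rpow_add hn0, ← Real.rpow_add hn0]
        congr 1
        rw [hc]
        ring
      have e5 : qm * (n : ℝ) ^ (κ / 4) * (9 * (n : ℝ) ^ (1 - κ)) / 2 =
          9 / 2 * (n : ℝ) ^ (-(κ / 2)) := by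
        rw [← e4]
        ring
      rw [e5, Real.rpow_neg hn0.le]
      have e6 : ((n : ℝ) ^ (κ / 2))⁻¹ ≤ 5⁻¹ := by gcongr
      linarith
    · change 3 * l ≤ κ / 8 * l * (24 / κ)
      have : κ / 8 * l * (24 / κ) = 3 * l := by
        field_simp
        norm_num
      rw [this]
  have hE2 : pb q E2 ≤ (n : ℝ) ^ (-c) / 4 := by
    by_cases hcase : (n : ℝ) ^ (1 - κ) / 2 ≤ A.card
    · have e1 : pb q E2 = pb q (fun G => ∀ v ∈ A, (dg G v : ℝ) < mu q v + t) := by
        congr 1
        funext G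
        simp only [E2, if_pos hcase]
      rw [e1]
      set lam : ℝ := S / (8 * μ) with hlam
      have hlam0 : 0 ≤ lam := by positivity
      have hlam1 : lam ≤ 1 := by
        rw [hlam, div_le_one (by positivity)]
        linarith
      have hlam2 : lam ^ 2 * μ = l / 64 := by
        rw [hlam, div_pow, hSS]
        field_simp
        norm_num
      have hApos : 0 < A.card := by
        have : (0 : ℝ) < A.card := lt_of_lt_of_le (by positivity) hcase
        exact_mod_cast this
      have htμ : t ≤ μ := by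
        rw [ht]
        linarith
      have e3 := some_large q hq qm hqle hqm12 A hApos μ lam t hlam0 hlam1 (fun v _ => hu v) ?_ ?_
      · refine e3.trans ?_
        have e4 : Real.exp (4 * lam ^ 2 * μ) = (n : ℝ) ^ (1 / 16 : ℝ) := by
          rw [Real.rpow_def_of_pos hn0]
          congr 1
          change _ = l * (1 / 16)
          have k1 : 4 * lam ^ 2 * μ = 4 * (lam ^ 2 * μ) := by ring
          rw [k1, hlam2]
          ring
        have e5 : 4 * Real.exp (4 * lam ^ 2 * μ) / A.card ≤ 8 * (n : ℝ) ^ (-(7 / 16) : ℝ) := by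
          rw [e4, div_le_iff₀ (by exact_mod_cast hApos)]
          have k1 : (n : ℝ) ^ (1 / 16 : ℝ) = (n : ℝ) ^ (-(7 / 16) : ℝ) * (n : ℝ) ^ (1 / 2 : ℝ) := by
            rw [← Real.rpow_add hn0]
            norm_num
          have k2 : (n : ℝ) ^ (1 / 2 : ℝ) ≤ (n : ℝ) ^ (1 - κ) :=
            Real.rpow_le_rpow_of_exponent_le hn1 (by linarith)
          have k3 : (n : ℝ) ^ (1 / 2 : ℝ) ≤ 2 * A.card := by linarith
          rw [k1]
          have k4 : 0 ≤ (n : ℝ) ^ (-(7 / 16) : ℝ) := by positivity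
          nlinarith
        have e6 : Real.exp (4 * lam ^ 2 * qm) - 1 ≤ 8 * (n : ℝ) ^ (-(1 - c)) := by
          have k0 : lam ^ 2 ≤ 1 := pow_le_one₀ hlam0 hlam1
          have k0' : lam ^ 2 * qm ≤ 1 * qm := mul_le_mul_of_nonneg_right k0 hqm0.le
          have k1 : 4 * lam ^ 2 * qm ≤ 1 := by linarith
          have k2 : 0 ≤ 4 * lam ^ 2 * qm := by positivity
          obtain ⟨_, k3⟩ := exp_sub_one_bounds k2 k1
          have k4 : (n : ℝ) ^ (-(1 - c)) = qm := by
            rw [hqm]
            congr 1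
            ring
          rw [k4]
          linarith
        linarith
      · intro v hv
        rw [hA, mem_filter] at hv
        linarith [hv.2]
      · have k1 : μ * lam ^ 2 / 8 = l / 512 := by
          have : μ * lam ^ 2 = l / 64 := by rw [mul_comm, hlam2]
          rw [this]
          ring
        have k2 : lam * t = l / 1024 := by
          rw [hlam, ht]
          have : S / (8 * μ) * (S / 128) = S ^ 2 / (1024 * μ) := by
            field_simp
            norm_num
          rw [this, hSS]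
          field_simp
        rw [k1, k2]
        have := Real.log_two_lt_d9
        linarith
    · have e1 : pb q E2 = pb q (fun G => (dg G u : ℝ) ≤ mu q u - t / 8) := by
        congr 1
        funext G
        simp only [E2, if_neg hcase]
      rw [e1]
      have e3 := dg_lower q hq u μ (t / 8) hμ0 le_rfl (by positivity) (by linarith)
      have e4 : Real.exp (-((t / 8) ^ 2) / (4 * μ)) = (n : ℝ) ^ (-(1 / 4194304 : ℝ)) := by
        rw [← exp_log_rpow n (by omega)]
        congr 1
        rw [ht, div_div, div_pow, hSS]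
        change _ = -(1 / 4194304 * l)
        field_simp
        norm_num
      rw [e4] at e3
      linarith
  -- the good graphs
  have hgood : ∀ G : SimpleGraph (Fin n), ¬ E1 G → ¬ E2 G → ¬ E3 G → ¬ E4 G →
      Typ κ (1 / 2000) (24 / κ) C' G := by
    intro G g1 g2 g3 g4 D hD1 hD2
    have hdeg2 : ∀ v, (dg G v : ℝ) < 2 * μ := by
      intro v
      by_contra hcon
      push Not at hcon
      exact g1 ⟨v, mem_univ _, by linarith [hu v]⟩
    obtain ⟨vD, hvD⟩ := hD2
    have hDμ : (D : ℝ) ≤ 2 * μ := by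
      rw [← hvD]
      exact (hdeg2 vD).le
    have hsqrt : Real.sqrt (D * Real.log n) ≤ 3 / 2 * S := by
      apply Real.sqrt_le_iff.2
      refine ⟨by positivity, ?_⟩
      rw [mul_pow, hSS]
      have : (D : ℝ) * Real.log n ≤ 2 * μ * l := by gcongr
      nlinarith [mul_pos hμ0 hl0]
    have hεt : 1 / 2000 * Real.sqrt (D * Real.log n) ≤ t / 8 := by
      rw [ht]
      linarith
    have g3' : ((univ.filter (fun v => mu q v + t / 4 ≤ dg G v)).card : ℝ) <
        (n : ℝ) ^ (1 - κ) / 2 := not_le.1 g3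
    -- lower bound for `D` and few vertices of large degree
    have hkey : μ / 2 ≤ D ∧ ((univ.filter (fun v =>
        (D : ℝ) - 1 / 2000 * Real.sqrt (D * Real.log n) < dg G v)).card : ℝ) ≤
          (n : ℝ) ^ (1 - κ) := by
      by_cases hcase : (n : ℝ) ^ (1 - κ) / 2 ≤ A.card
      · have g2' : ¬ ∀ v ∈ A, (dg G v : ℝ) < mu q v + t := by
          simpa only [E2, if_pos hcase] using g2
        push Not at g2'
        obtain ⟨v, hvA, hv⟩ := g2'
        rw [hA, mem_filter] at hvA
        have hDv : (dg G v : ℝ) ≤ D := by exact_mod_cast hD1 v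
        have hDlow : μ + t / 2 ≤ D := by linarith [hvA.2]
        refine ⟨by linarith, ?_⟩
        have h1 : (univ.filter (fun v => (D : ℝ) - 1 / 2000 * Real.sqrt (D * Real.log n) <
            dg G v)) ⊆ (univ.filter (fun v => mu q v + t / 4 ≤ dg G v)) := by
          intro w hw
          rw [mem_filter] at hw ⊢
          refine ⟨mem_univ _, ?_⟩
          have := hu w
          linarith [hw.2]
        have h2 : ((univ.filter (fun v => (D : ℝ) - 1 / 2000 * Real.sqrt (D * Real.log n) <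
            dg G v)).card : ℝ) ≤ (univ.filter (fun v => mu q v + t / 4 ≤ dg G v)).card := by
          exact_mod_cast card_le_card h1
        have h3 : 0 ≤ (n : ℝ) ^ (1 - κ) := by positivity
        linarith
      · have g2' : ¬ (dg G u : ℝ) ≤ mu q u - t / 8 := by
          simpa only [E2, if_neg hcase] using g2
        push Not at g2' hcase
        have hDv : (dg G u : ℝ) ≤ D := by exact_mod_cast hD1 u
        have hDlow : μ - t / 8 ≤ D := by linarith
        refine ⟨by linarith, ?_⟩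
        have h1 : (univ.filter (fun v => (D : ℝ) - 1 / 2000 * Real.sqrt (D * Real.log n) <
            dg G v)) ⊆ A ∪ (univ.filter (fun v => mu q v + t / 4 ≤ dg G v)) := by
          intro w hw
          rw [mem_filter] at hw
          rw [mem_union, hA, mem_filter, mem_filter]
          by_cases hwA : μ - t / 2 ≤ mu q w
          · exact Or.inl ⟨mem_univ _, hwA⟩
          · right
            push Not at hwA
            refine ⟨mem_univ _, ?_⟩
            linarith [hw.2]
        have h2 : ((univ.filter (fun v => (D : ℝ) - 1 / 2000 * Real.sqrt (D * Real.log n) <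
            dg G v)).card : ℝ) ≤ A.card + (univ.filter (fun v => mu q v + t / 4 ≤ dg G v)).card := by
          exact_mod_cast (card_le_card h1).trans (card_union_le _ _)
        linarith
    obtain ⟨hDlow, hfew⟩ := hkey
    refine ⟨?_, ?_, hfew, ?_⟩
    · change C' * l ≤ D
      linarith
    · have k1 : (n : ℝ) ^ κ = (n : ℝ) ^ (κ / 2) * (n : ℝ) ^ (κ / 2) := by
        rw [← Real.rpow_add hn0]
        congr 1
        ring
      have k2 : (n : ℝ) ^ c ≤ (n : ℝ) ^ (κ / 2) := Real.rpow_le_rpow_of_exponent_le hn1 (by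
        rw [hc]
        linarith)
      have k3 : (0 : ℝ) < (n : ℝ) ^ (κ / 2) := by positivity
      nlinarith
    · by_contra hcon
      exact g4 hcon
  -- conclusion
  rw [pb_not]
  have hfin : pb q (fun G => ¬ Typ κ (1 / 2000) (24 / κ) C' G) ≤ pb q E1 + (pb q E2 + (pb q E3 + pb q E4)) := by
    have k1 : pb q (fun G => ¬ Typ κ (1 / 2000) (24 / κ) C' G) ≤ pb q (fun G => E1 G ∨ (E2 G ∨ (E3 G ∨ E4 G))) := by
      apply pb_mono q hq
      intro G hG
      by_contra hcon
      push Not at hcon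
      exact hG (hgood G hcon.1 hcon.2.1 hcon.2.2.1 (fun h => h hcon.2.2.2))
    refine k1.trans ((pb_or_le q hq _ _).trans ?_)
    gcongr
    refine (pb_or_le q hq _ _).trans ?_
    gcongr
    exact pb_or_le q hq _ _
  linarith

end Pool.Agent.W2helper87.SR
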