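import Pool.Agent.W2helper87.SR.Col
import Pool.Agent.W2helper87.SR.Typ
import Pool.Agent.Results.MP_db9399_co.SparseLargeDegrees

/-!
# Total list colourings extending a precoloured distance-3 matching, typical sparse graphs
-/

set_option autoImplicit false

namespace Pool.Agent.W2helper87.SR

open Finset Pool.Agent.H162R2.Sparse Pool.Agent.H162R2.AG
open Pool.Agent.Results.MP_db9399_co.SparseLargeDegrees

theorem cutX_cutX {V : Type} [Fintype V] [DecidableEq V] (G : SimpleGraph V) (S T : Finset V) (h : S ⊆ T) :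
    ∀ a b, (cutX G T).Adj a b → (cutX (cutX G S) T).Adj a b := by
  intro a b hab
  rw [cutX_adj] at hab
  rw [cutX_adj, cutX_adj]
  exact ⟨⟨hab.1, fun h' => hab.2.1 (h h'), fun h' => hab.2.2 (h h')⟩, hab.2.1, hab.2.2⟩

set_option maxHeartbeats 1000000 in
theorem total_typ : ∃ κ C : ℝ, 0 < κ ∧ κ ≤ 1 / 768000000 ∧ 0 < C ∧ ∃ n₀ : ℕ, ∀ n : ℕ, n₀ ≤ n →
    ∀ G : SimpleGraph (Fin n), Typ κ (1 / 2000) (24 / κ) C G →
    ∀ D : ℕ, (∀ v, dg G v ≤ D) → (∃ v, dg G v = D) →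
    ∀ H : SimpleGraph (Fin n), IsDistThreeMatching G H → ∀ k, D + 1 ≤ k → ListExtends G H k := by
  classical
  obtain ⟨K, hK, hcol⟩ := split_col
  set ε : ℝ := 1 / 4000 with hε
  have hε0 : 0 < ε := by norm_num
  obtain ⟨J, hJ⟩ : ∃ J : ℕ, 32 * K ^ 2 ≤ ε ^ 2 * 2 ^ J := by
    obtain ⟨J, hJ⟩ := pow_unbounded_of_one_lt (32 * K ^ 2 / ε ^ 2) (one_lt_two (α := ℝ))
    refine ⟨J, ?_⟩
    rw [div_lt_iff₀ (by positivity)] at hJ
    linarith
  set κ₁ : ℝ := ε / (8 * (J + 1)) with hκ₁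
  have hκ₁0 : 0 < κ₁ := by positivity
  set κ : ℝ := κ₁ ^ 2 / 3 with hκ
  have hκ0 : 0 < κ := by positivity
  have hκ3 : 3 * κ = κ₁ ^ 2 := by rw [hκ]; ring
  have hκ4 : κ ≤ 1 / 768000000 := by
    have h2 : κ₁ ≤ ε / 8 := by
      rw [hκ₁]
      have h3 : (0 : ℝ) ≤ J := Nat.cast_nonneg _
      rw [div_le_div_iff₀ (by positivity) (by norm_num)]
      nlinarith
    have h3 : κ₁ ^ 2 ≤ (ε / 8) ^ 2 := by gcongr
    rw [hκ]
    have h4 : (ε / 8) ^ 2 / 3 ≤ 1 / 768000000 := by rw [hε]; norm_num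
    linarith
  -- `b` bounds the number of neighbours in the exceptional set
  set A₀ : ℝ := 24 / κ with hA₀
  have hA₀0 : 0 < A₀ := by positivity
  set b : ℕ := ⌊A₀⌋₊ with hb
  have hbA : (b : ℝ) ≤ A₀ := Nat.floor_le hA₀0.le
  obtain ⟨C₁, X₁, hC₁, hX₁, hnum₁⟩ := numbers K ε A₀ hK hε0 hA₀0 J κ₁ rfl hJ
  obtain ⟨C₂, X₂, hC₂, hX₂, hnum₂⟩ := numbers K ε (A₀ + 1) hK hε0 (by positivity) J κ₁ rfl hJ
  set C : ℝ := C₁ + C₂ + 1 with hC
  refine ⟨κ, C, hκ0, hκ4, by positivity, ?_⟩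
  -- `n` large
  have ev1 : ∀ᶠ n : ℕ in Filter.atTop, X₁ + X₂ + 8000 * (2 * A₀ + 4) ≤ Real.log n :=
    (Real.tendsto_log_atTop.comp tendsto_natCast_atTop_atTop).eventually_ge_atTop _
  have ev2 : ∀ᶠ n : ℕ in Filter.atTop, (2 : ℝ) ^ (2 ^ J) + (J + 1) ≤ (n : ℝ) ^ κ :=
    ((tendsto_rpow_atTop hκ0).comp tendsto_natCast_atTop_atTop).eventually_ge_atTop _
  obtain ⟨n₀, hn₀⟩ := Filter.eventually_atTop.1 (ev1.and (ev2.and (Filter.eventually_ge_atTop 16)))
  refine ⟨n₀, fun n hn G hTyp D hdeg hmax H hH k hk => ?_⟩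
  obtain ⟨hlog, hbig, hn16⟩ := hn₀ n hn
  obtain ⟨hCD, hDn, hfew, hsp⟩ := hTyp D hdeg hmax
  have hnr : (16 : ℝ) ≤ n := by exact_mod_cast hn16
  have hn0 : (0 : ℝ) < n := by linarith
  have hn1 : (1 : ℝ) ≤ n := by linarith
  have hlog8 : 8000 * (2 * A₀ + 4) ≤ Real.log n := by linarith
  have hlog1 : 1 ≤ Real.log n := by linarith
  have hD1 : (C₁ + C₂) * Real.log n ≤ D - 1 := by
    rw [hC] at hCD
    nlinarith
  have hC₁l : 0 < C₁ * Real.log n := by positivity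
  have hC₂l : 0 < C₂ * Real.log n := by positivity
  have hlogD : Real.log n ≤ D := by
    rw [hC] at hCD
    nlinarith
  have hD0 : (1 : ℝ) < D := by nlinarith
  have hD0' : 1 < D := by exact_mod_cast hD0
  obtain ⟨E, rfl⟩ : ∃ E, D = E + 1 := ⟨D - 1, by omega⟩
  have hE0 : 0 < E := by omega
  push_cast at hD1 hCD hDn hfew hlogD hD0
  have hDn2 : (E : ℝ) + 1 + 2 ≤ n := by
    have h1 : (n : ℝ) ^ κ ≤ (n : ℝ) ^ (1 / 2 : ℝ) :=
      Real.rpow_le_rpow_of_exponent_le hn1 (by linarith)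
    have h2 : (n : ℝ) ^ (1 / 2 : ℝ) = Real.sqrt n := (Real.sqrt_eq_rpow _).symm
    have h3 : Real.sqrt n * Real.sqrt n = n := Real.mul_self_sqrt hn0.le
    have h4 : (4 : ℝ) ≤ Real.sqrt n := by
      apply Real.le_sqrt_of_sq_le
      linarith
    have h5 : 4 * Real.sqrt n ≤ Real.sqrt n * Real.sqrt n :=
      mul_le_mul_of_nonneg_right h4 (Real.sqrt_nonneg _)
    linarith
  -- the two scales
  set S : ℝ := Real.sqrt ((E + 1) * Real.log n) with hS
  set S' : ℝ := Real.sqrt (E * Real.log n) with hS'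
  have hS'S : S' ≤ S := by
    apply Real.sqrt_le_sqrt
    nlinarith
  have hSlog : Real.log n ≤ S := by
    apply Real.le_sqrt_of_sq_le
    nlinarith
  have hS8 : 8000 * (2 * A₀ + 4) ≤ S := hlog8.trans hSlog
  -- the numbers
  obtain ⟨-, -, ha, -⟩ := hnum₁ n (E + 1) (by linarith) (by
    push_cast
    linarith) (by push_cast; linarith) _ _ rfl rfl
  obtain ⟨hD'1, hη2, -, mj, dj, q1, q2, q3, q4⟩ := hnum₂ n E (by linarith) (by linarith)
    (by linarith) _ _ rfl rfl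
  set η : ℝ := κ₁ * S' with hη
  have hη0 : 0 ≤ η := by positivity
  set D' : ℕ := ⌊(E : ℝ) - ε * S'⌋₊ with hD'
  have hD'E : D' ≤ E := by
    have : (D' : ℝ) ≤ E := by
      have : 0 ≤ ε * S' := by positivity
      linarith
    exact_mod_cast this
  have hEr : (0 : ℝ) < E := by exact_mod_cast hE0
  have hexp : Real.exp (-(η ^ 2) / E) = (n : ℝ) ^ (-(κ₁ ^ 2)) := by
    rw [← exp_log_rpow n (by omega)]
    congr 1
    have hSS : S' ^ 2 = E * Real.log n := Real.sq_sqrt (by positivity)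
    rw [hη, mul_pow, hSS]
    field_simp
  -- the set of vertices of large degree
  set T0 : Finset (Fin n) := univ.filter (fun v => ((E : ℝ) + 1) - 1 / 2000 * S < dg G v) with hT0
  have hT0n : ∀ v ∉ T0, (dg G v : ℝ) ≤ (E + 1) - 1 / 2000 * S := by
    intro v hv
    by_contra hcon
    exact hv (by
      rw [hT0, mem_filter]
      exact ⟨mem_univ _, not_le.1 hcon⟩)
  have hgap : ((E : ℝ) + 1) - 1 / 2000 * S ≤ E - ε * S' := by
    have : ε * S' ≤ ε * S := by gcongr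
    rw [hε] at this ⊢
    linarith
  intro L M hL hM c d hcd
  refine wrap G H hH (E + 1) k hdeg hk L M hL hM c d hcd ?_
  intro P G' LE LV bad hsub hsym hM0 hM hDP hP hP2 hL0 hL1 hb1 hb2 hLE
  -- the random splitting
  set F : SimpleGraph (Fin n) := cutX G' T0 with hF
  have hFdeg : ∀ v, dg F v ≤ D' := by
    intro v
    by_cases hv : v ∈ T0
    · have : dg F v = 0 := by
        unfold dg
        rw [card_eq_zero, eq_empty_iff_forall_notMem]
        intro w hw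
        rw [mem_nb, cutX_adj] at hw
        exact hw.2.1 hv
      rw [this]
      exact Nat.zero_le _
    · apply Nat.le_floor
      have h1 : (dg F v : ℝ) ≤ dg G v := by
        exact_mod_cast dg_mono (fun a b hab => hsub a b ((cutX_adj G' T0 a b).1 hab).1) v
      exact h1.trans ((hT0n v hv).trans hgap)
  have hFcard : ∀ x y, F.Adj x y → (trim E (LE x y)).card = E := by
    intro x y hxy
    apply trim_card
    have h1 := hL0 x y ((cutX_adj G' T0 x y).1 hxy).1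
    omega
  obtain ⟨T₁, hT₁, hLC⟩ := hcol n F E D' J (A₀ + 1) η mj dj (by omega) hE0 hD'E hFdeg
    (by positivity) hη0 hη2 q1 q2 q3 q4 (fun x y => trim E (LE x y))
    (fun x y => by rw [hsym x y]) hFcard
  -- the size of the exceptional set
  have hn1κ : (1 : ℝ) ≤ (n : ℝ) ^ (1 - κ) := Real.one_le_rpow hn1 (by linarith)
  set m : ℕ := ⌈2 * (n : ℝ) ^ (1 - κ)⌉₊ with hm
  have hm1 : 2 * (n : ℝ) ^ (1 - κ) ≤ m := Nat.le_ceil _
  have hm2 : (m : ℝ) ≤ 3 * (n : ℝ) ^ (1 - κ) := by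
    have := (Nat.ceil_lt_add_one (show 0 ≤ 2 * (n : ℝ) ^ (1 - κ) by positivity)).le
    linarith
  have hm0 : 1 ≤ m := by
    have : (1 : ℝ) ≤ m := by linarith
    exact_mod_cast this
  have hTm : (T0 ∪ T₁).card ≤ m := by
    have e3 : (n : ℝ) * (n : ℝ) ^ (-(κ₁ ^ 2)) ≤ (n : ℝ) ^ (1 - 3 * κ) := by
      have h1 : (n : ℝ) * (n : ℝ) ^ (-(κ₁ ^ 2)) = (n : ℝ) ^ (1 + -(κ₁ ^ 2)) := by
        rw [Real.rpow_add hn0, Real.rpow_one]
      rw [h1]
      apply Real.rpow_le_rpow_of_exponent_le hn1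
      linarith
    have e4 : (n : ℝ) ^ (1 - 3 * κ) ≤ (n : ℝ) ^ (1 - 2 * κ) := by
      apply Real.rpow_le_rpow_of_exponent_le hn1
      linarith
    have e5 : (n : ℝ) ^ κ * (n : ℝ) ^ (1 - 3 * κ) = (n : ℝ) ^ (1 - 2 * κ) := by
      rw [← Real.rpow_add hn0]
      congr 1
      ring
    have e6 : (n : ℝ) ^ κ * (n : ℝ) ^ (1 - 2 * κ) = (n : ℝ) ^ (1 - κ) := by
      rw [← Real.rpow_add hn0]
      congr 1
      ring
    rw [hexp] at hT₁
    have e7 : (n : ℝ) * 2 ^ (2 ^ J) * (n : ℝ) ^ (-(κ₁ ^ 2)) ≤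
        2 ^ (2 ^ J) * (n : ℝ) ^ (1 - 2 * κ) := by
      calc (n : ℝ) * 2 ^ (2 ^ J) * (n : ℝ) ^ (-(κ₁ ^ 2)) =
            2 ^ (2 ^ J) * ((n : ℝ) * (n : ℝ) ^ (-(κ₁ ^ 2))) := by ring
        _ ≤ 2 ^ (2 ^ J) * (n : ℝ) ^ (1 - 2 * κ) := by
            have := e3.trans e4
            gcongr
    have hEn : (E : ℝ) ≤ (n : ℝ) ^ κ := by linarith
    have e8 : (n : ℝ) * E * (J + 1) * (n : ℝ) ^ (-(κ₁ ^ 2)) ≤
        (J + 1) * (n : ℝ) ^ (1 - 2 * κ) := by
      calc (n : ℝ) * E * (J + 1) * (n : ℝ) ^ (-(κ₁ ^ 2)) =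
            (J + 1) * (E * ((n : ℝ) * (n : ℝ) ^ (-(κ₁ ^ 2)))) := by ring
        _ ≤ (J + 1) * ((n : ℝ) ^ κ * (n : ℝ) ^ (1 - 3 * κ)) := by gcongr
        _ = (J + 1) * (n : ℝ) ^ (1 - 2 * κ) := by rw [e5]
    have e9 : (2 ^ (2 ^ J) + ((J : ℝ) + 1)) * (n : ℝ) ^ (1 - 2 * κ) ≤ (n : ℝ) ^ (1 - κ) := by
      rw [← e6]
      gcongr
    have e10 : ((T0 ∪ T₁).card : ℝ) ≤ T0.card + T₁.card := by exact_mod_cast card_union_le T0 T₁
    have e11 : ((T0 ∪ T₁).card : ℝ) ≤ m := by linarith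
    exact_mod_cast e11
  obtain ⟨T, hT, hTc, hout⟩ := closure G (T0 ∪ T₁) m A₀ hA₀0 hm0 hTm (fun Y hY => by
    apply hsp Y
    have : (Y.card : ℝ) ≤ 3 * m := by exact_mod_cast hY
    linarith)
  have hbS : (2 : ℝ) * b + 2 ≤ 1 / 2000 * S := by linarith
  -- the hypotheses of the combination
  have hdens : Dens (A_meetX G T) (2 * A₀) := by
    refine Pool.Agent.H892.LEC.dens_meet G T (2 * A₀) ?_ ?_
    · intro X hX
      have h2 := hsp X (by
        have h3 : (X.card : ℝ) ≤ 2 * m := by exact_mod_cast (card_le_card hX).trans hTc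
        linarith)
      unfold e2 at h2
      have h3 : A₀ * (X.card : ℝ) ≤ 2 * A₀ * X.card := by
        nlinarith [Nat.cast_nonneg (α := ℝ) X.card]
      linarith
    · intro v hv
      have := hout v hv
      linarith
  have hFL : FewLarge G (E + 1) T (2 * A₀) b (1 / 2000 * S - 2 * b - 2) := by
    refine ⟨fun v => by rw [← dg_eq_ncard]; exact hdeg v, ha, ?_, ?_, ?_⟩
    · intro X
      refine le_trans (le_of_eq ?_) (hdens X)
      rw [Set.ncard_eq_toFinset_card']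
      congr 2
      ext e
      simp only [Set.mem_toFinset, Set.mem_ofPred_eq, mem_filter, mem_pr, A_meetX_adj]
      tauto
    · intro v hv
      have h1 := hout v hv
      have h2 : ((nb G v).filter (fun w => w ∈ T)).card ≤ b := Nat.le_floor h1
      refine le_trans (le_of_eq ?_) h2
      rw [Set.ncard_eq_toFinset_card']
      congr 1
      ext w
      simp only [Set.mem_toFinset, Set.mem_ofPred_eq, mem_filter, mem_nb]
      tauto
    · intro v hv
      have h1 := hT0n v (fun h => hv (hT (mem_union_left _ h)))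
      have h2 : ({w : Fin n | w ∉ T ∧ G.Adj v w}.ncard : ℝ) ≤ dg G v := by
        have : {w : Fin n | w ∉ T ∧ G.Adj v w}.ncard ≤ dg G v := by
          rw [dg_eq_ncard]
          apply Set.ncard_le_ncard _ (Set.toFinite _)
          intro w hw
          exact hw.2
        exact_mod_cast this
      push_cast
      linarith
  refine core_of G (E + 1) T (2 * A₀) b (1 / 2000 * S - 2 * b - 2) (by linarith) hFL P G' LE LV
    hsub hsym hM0 hM hDP hP hP2 hL0 hL1 ?_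
  intro d0 W _ _ _ hW
  refine LC_sub (cutX_cutX G' T0 T (fun v hv => hT (mem_union_left _ hv))) ?_
  refine Pool.Agent.W2helper87.SR.LC_mono ?_ (hLC T (fun v hv => hT (mem_union_right _ hv)) W ?_)
  · intro x y _
    exact sdiff_subset_sdiff (trim_subset E (LE x y)) subset_rfl
  · intro v hv
    have h1 := hW v hv
    have h2 : (W v).card ≤ b + 1 := by
      split_ifs at h1 <;> omega
    have h3 : ((W v).card : ℝ) ≤ b + 1 := by exact_mod_cast h2
    linarith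

end Pool.Agent.W2helper87.SR
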